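import Pool.Agent.helper79.FR.Grp

/-!
# MP_f09395_gt: the quartic Casimir in a normed algebra with a trace (calculus part)
-/

noncomputable section

namespace Pool.Agent.helper46.FR

open scoped ContDiff
open Pool.Agent.Helper93.Fin Pool.Agent.helper79.FP Pool.Agent.helper79.FR

section gen

variable {𝔸 : Type*} [NormedRing 𝔸] [NormedAlgebra ℝ 𝔸]

/-- the form `(X, Y) ↦ - tr (X Y)` -/
def Qg (tr : 𝔸 →ₗ[ℝ] ℝ) (X : 𝔸) : ℝ := -tr (X * X)

/-- the gradient of the quartic Casimir without its radial part -/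
def Bgen (tr : 𝔸 →ₗ[ℝ] ℝ) (X : 𝔸) : 𝔸 :=
  (4 : ℝ) • ((Qg tr X)⁻¹ • X ^ 3 + (tr (X ^ 4) * ((Qg tr X) ^ 2)⁻¹) • X)

/-- `cos 4θ` -/
def cgen (tr : 𝔸 →ₗ[ℝ] ℝ) (X : 𝔸) : ℝ := 4 * tr (X ^ 4) * ((Qg tr X) ^ 2)⁻¹ - 3

variable {tr : 𝔸 →ₗ[ℝ] ℝ}

theorem Qg_smul (r : ℝ) (X : 𝔸) : Qg tr (r • X) = r ^ 2 * Qg tr X := by
  unfold Qg
  rw [smul_mul_smul_comm, map_smul, smul_eq_mul]
  ring

theorem tr4_smul (r : ℝ) (X : 𝔸) : tr ((r • X) ^ 4) = r ^ 4 * tr (X ^ 4) := by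
  rw [smul_pow, map_smul, smul_eq_mul]

theorem Bgen_smul (r : ℝ) (X : 𝔸) : Bgen tr (r • X) = r • Bgen tr X := by
  unfold Bgen
  rw [Qg_smul, tr4_smul, smul_pow]
  by_cases hr : r = 0
  · subst hr; simp
  · simp only [smul_add, smul_smul]
    congr 2
    · rw [mul_inv]; field_simp
    · rw [mul_pow, mul_inv]; field_simp

theorem cgen_smul {r : ℝ} (hr : r ≠ 0) (X : 𝔸) : cgen tr (r • X) = cgen tr X := by
  unfold cgen
  rw [Qg_smul, tr4_smul, mul_pow, mul_inv]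
  field_simp

theorem Bgen_comm (X : 𝔸) : ⁅X, Bgen tr X⁆ = 0 := by
  unfold Bgen
  rw [Ring.lie_def]
  simp only [mul_smul_comm, smul_mul_assoc, mul_add, add_mul]
  have h : X * X ^ 3 = X ^ 3 * X := by noncomm_ring
  rw [h, sub_self]

variable [FiniteDimensional ℝ 𝔸]

theorem tr_smooth {E : Type*} [NormedAddCommGroup E] [NormedSpace ℝ E] {f : E → 𝔸} {s : Set E}
    (hf : ContDiffOn ℝ ∞ f s) : ContDiffOn ℝ ∞ (fun x => tr (f x)) s :=
  (LinearMap.toContinuousLinearMap tr).contDiff.comp_contDiffOn hf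

theorem tr_deriv {x : ℝ → 𝔸} {v : 𝔸} {t : ℝ} (hx : HasDerivAt x v t) :
    HasDerivAt (fun t => tr (x t)) (tr v) t :=
  (LinearMap.toContinuousLinearMap tr).hasFDerivAt.comp_hasDerivAt t hx

variable {m : Submodule ℝ 𝔸}

theorem coe_smooth : ContDiff ℝ ∞ (fun u : m => (u : 𝔸)) := m.subtypeL.contDiff

theorem Qg_smooth : ContDiff ℝ ∞ (fun u : m => Qg tr (u : 𝔸)) := by
  unfold Qg
  rw [← contDiffOn_univ]
  exact (tr_smooth ((coe_smooth (m := m)).mul coe_smooth).contDiffOn).neg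

theorem tr4_smooth : ContDiff ℝ ∞ (fun u : m => tr ((u : 𝔸) ^ 4)) := by
  rw [← contDiffOn_univ]
  exact tr_smooth ((coe_smooth (m := m)).pow 4).contDiffOn

theorem Bgen_smooth (hpos : ∀ u : m, u ≠ 0 → Qg tr (u : 𝔸) ≠ 0) :
    ContDiffOn ℝ ∞ (fun u : m => Bgen tr (u : 𝔸)) {0}ᶜ := by
  unfold Bgen
  have h1 : ∀ u ∈ ({0}ᶜ : Set m), Qg tr (u : 𝔸) ≠ 0 := fun u hu => hpos u hu
  have hQ : ContDiffOn ℝ ∞ (fun u : m => Qg tr (u : 𝔸)) {0}ᶜ := Qg_smooth.contDiffOn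
  exact ContDiffOn.const_smul (4 : ℝ) ((ContDiffOn.smul (hQ.inv h1)
    ((coe_smooth (m := m)).pow 3).contDiffOn).add (ContDiffOn.smul (tr4_smooth.contDiffOn.mul
      ((hQ.pow 2).inv fun u hu => pow_ne_zero 2 (h1 u hu))) coe_smooth.contDiffOn))

theorem cgen_smooth (hpos : ∀ u : m, u ≠ 0 → Qg tr (u : 𝔸) ≠ 0) :
    ContDiffOn ℝ ∞ (fun u : m => cgen tr (u : 𝔸)) {0}ᶜ := by
  unfold cgen
  have h1 : ∀ u ∈ ({0}ᶜ : Set m), Qg tr (u : 𝔸) ≠ 0 := fun u hu => hpos u hu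
  have hQ : ContDiffOn ℝ ∞ (fun u : m => Qg tr (u : 𝔸)) {0}ᶜ := Qg_smooth.contDiffOn
  exact ((contDiffOn_const.mul tr4_smooth.contDiffOn).mul
    ((hQ.pow 2).inv fun u hu => pow_ne_zero 2 (h1 u hu))).sub contDiffOn_const

/-- derivative of a function on a subspace by a line -/
theorem fderiv_line {F : Type*} [NormedAddCommGroup F] [NormedSpace ℝ F] {f : m → F}
    (hf : ContDiffOn ℝ ∞ f {0}ᶜ) {u : m} (hu : u ≠ 0) (v : m) {w : F}
    (h : HasDerivAt (fun t : ℝ => f (u + t • v)) w 0) : fderiv ℝ f u v = w := by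
  have h1 : DifferentiableAt ℝ f u :=
    (hf.contDiffAt (isOpen_compl_singleton.mem_nhds hu)).differentiableAt (by simp)
  rw [← h1.lineDeriv_eq_fderiv]
  exact HasLineDerivAt.lineDeriv h

theorem line_deriv (u v : 𝔸) : HasDerivAt (fun t : ℝ => u + t • v) v 0 := by
  simpa using ((hasDerivAt_id (0 : ℝ)).smul_const v).const_add u

theorem pow3_deriv {x : ℝ → 𝔸} {v : 𝔸} {t : ℝ} (hx : HasDerivAt x v t) :
    HasDerivAt (fun t => x t ^ 3) (v * x t * x t + x t * v * x t + x t * x t * v) t := by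
  have h1 := (hx.mul hx).mul hx
  have e : (fun t => x t ^ 3) = (x * x) * x := by
    funext s; simp [pow_succ]
  rw [e]
  refine h1.congr_deriv ?_
  simp only [Pi.mul_apply]
  noncomm_ring

theorem pow4_deriv {x : ℝ → 𝔸} {v : 𝔸} {t : ℝ} (hx : HasDerivAt x v t) :
    HasDerivAt (fun t => x t ^ 4) (v * x t * x t * x t + x t * v * x t * x t
      + x t * x t * v * x t + x t * x t * x t * v) t := by
  have h1 := ((hx.mul hx).mul hx).mul hx
  have e : (fun t => x t ^ 4) = ((x * x) * x) * x := by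
    funext s; simp [pow_succ]
  rw [e]
  refine h1.congr_deriv ?_
  simp only [Pi.mul_apply]
  noncomm_ring

variable (htr : ∀ X Y : 𝔸, tr (X * Y) = tr (Y * X))

include htr in
theorem tr4_deriv {x : ℝ → 𝔸} {v : 𝔸} {t : ℝ} (hx : HasDerivAt x v t) :
    HasDerivAt (fun t => tr (x t ^ 4)) (4 * tr (x t ^ 3 * v)) t := by
  refine (tr_deriv (pow4_deriv hx)).congr_deriv ?_
  have e1 : tr (v * x t * x t * x t) = tr (x t ^ 3 * v) := by
    rw [show v * x t * x t * x t = v * (x t * x t * x t) by noncomm_ring, htr]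
    congr 1; noncomm_ring
  have e2 : tr (x t * v * x t * x t) = tr (x t ^ 3 * v) := by
    rw [show x t * v * x t * x t = (x t * v) * (x t * x t) by noncomm_ring, htr]
    congr 1; noncomm_ring
  have e3 : tr (x t * x t * v * x t) = tr (x t ^ 3 * v) := by
    rw [htr]
    congr 1; noncomm_ring
  have e4 : tr (x t * x t * x t * v) = tr (x t ^ 3 * v) := by
    congr 1; noncomm_ring
  rw [map_add, map_add, map_add, e1, e2, e3, e4]
  ring

include htr in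
theorem Qg_deriv {x : ℝ → 𝔸} {v : 𝔸} {t : ℝ} (hx : HasDerivAt x v t) :
    HasDerivAt (fun t => Qg tr (x t)) (-(2 * tr (x t * v))) t := by
  have h1 : HasDerivAt (fun t => tr (x t * x t)) (tr (v * x t + x t * v)) t :=
    tr_deriv (hx.mul hx)
  refine h1.neg.congr_deriv ?_
  rw [map_add, htr v]
  ring

include htr in
theorem cgen_deriv {x : ℝ → 𝔸} {v : 𝔸} {t : ℝ} (hx : HasDerivAt x v t) (hq : Qg tr (x t) ≠ 0) :
    HasDerivAt (fun t => cgen tr (x t)) (16 * tr (x t ^ 3 * v) * ((Qg tr (x t)) ^ 2)⁻¹ +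
      16 * tr (x t ^ 4) * tr (x t * v) * ((Qg tr (x t)) ^ 3)⁻¹) t := by
  unfold cgen
  have h1 := (((tr4_deriv htr hx).const_mul 4).mul
    (((Qg_deriv htr hx).pow 2).inv (pow_ne_zero 2 hq))).sub_const 3
  refine h1.congr_deriv ?_
  simp only [Pi.inv_apply, Pi.pow_apply]
  field_simp
  ring

include htr in
/-- derivative in a direction orthogonal to the Casimirs -/
theorem Bgen_deriv {x : ℝ → 𝔸} {v : 𝔸} {t : ℝ} (hx : HasDerivAt x v t) (hq : Qg tr (x t) ≠ 0)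
    (h2 : tr (x t * v) = 0) (h4 : tr (x t ^ 3 * v) = 0) :
    HasDerivAt (fun t => Bgen tr (x t)) ((4 : ℝ) • ((Qg tr (x t))⁻¹ •
      (v * x t * x t + x t * v * x t + x t * x t * v) +
      (tr (x t ^ 4) * ((Qg tr (x t)) ^ 2)⁻¹) • v)) t := by
  unfold Bgen
  have hQ := Qg_deriv htr hx
  rw [h2, mul_zero, neg_zero] at hQ
  have hT := tr4_deriv htr hx
  rw [h4, mul_zero] at hT
  have h1 := ((((hQ.inv hq).smul (pow3_deriv hx)).add
    ((hT.mul ((hQ.pow 2).inv (pow_ne_zero 2 hq))).smul hx))).const_smul (4 : ℝ)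
  refine h1.congr_deriv ?_
  simp

end gen

end Pool.Agent.helper46.FR
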