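import Pool.Agent.helper79.FR.Grp
import Pool.Agent.helper8.Fin.Sp3a
import Pool.Agent.helper46.FR.CasGen

/-!
# The homogeneous spaces `Sp(2)/diag(z^a, z^b)`
-/

noncomputable section

namespace Pool.Agent.helper79.FR.Sp2

open scoped ContDiff Quaternion Matrix
open Pool.Agent.Helper93.Fin Pool.Agent.helper79.FP Pool.Agent.helper79.FR

attribute [local instance] Matrix.linftyOpNormedRing Matrix.linftyOpNormedAlgebra

/-- quaternionic `2 × 2` matrices -/
abbrev Mat : Type := Matrix (Fin 2) (Fin 2) ℍ[ℝ]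

/-- `Sp(2)` -/
def G : Subgroup Matˣ where
  carrier := {g | star (g : Mat) * (g : Mat) = 1}
  one_mem' := by simp
  mul_mem' := by
    intro a b ha hb
    simp only [Set.mem_ofPred_eq, Units.val_mul, star_mul] at *
    rw [mul_assoc, ← mul_assoc (star (a : Mat)), ha, one_mul, hb]
  inv_mem' := by
    intro a ha
    simp only [Set.mem_ofPred_eq] at *
    have h1 : star (a : Mat) = ((a⁻¹ : Matˣ) : Mat) := by
      rw [← Units.mul_eq_one_iff_eq_inv]; exact ha
    have h2 : star ((a⁻¹ : Matˣ) : Mat) = (a : Mat) := by rw [← h1, star_star]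
    rw [h2]; exact a.mul_inv

/-- `diag(z^a, z^b)` -/
def dg (a b : ℕ) (z : ℂ) : Mat :=
  Matrix.diagonal ![((z ^ a : ℂ) : ℍ[ℝ]), ((z ^ b : ℂ) : ℍ[ℝ])]

/-- `H = {diag(z^a, z^b)}` with unit complex numbers `z` -/
def H (a b : ℕ) : Subgroup Matˣ where
  carrier := {g | ∃ z : ℂ, ‖z‖ = 1 ∧ (g : Mat) = dg a b z}
  one_mem' := ⟨1, by simp, by
    rw [dg, Units.val_one, ← Matrix.diagonal_one]
    congr 1
    funext i
    fin_cases i <;> simp⟩
  mul_mem' := by
    rintro x y ⟨z, hz, hx⟩ ⟨z', hz', hy⟩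
    refine ⟨z * z', by simp [hz, hz'], ?_⟩
    rw [Units.val_mul, hx, hy, dg, dg, dg, Matrix.diagonal_mul_diagonal]
    congr 1
    ext i : 1
    fin_cases i <;> simp [mul_pow]
  inv_mem' := by
    rintro x ⟨z, hz, hx⟩
    have hz0 : z ≠ 0 := by intro h; simp [h] at hz
    refine ⟨z⁻¹, by simp [hz], ?_⟩
    have hzz : ∀ n : ℕ, ((z ^ n : ℂ) : ℍ[ℝ]) * ((z⁻¹ ^ n : ℂ) : ℍ[ℝ]) = 1 := by
      intro n
      rw [← Quaternion.coeComplex_mul, ← mul_pow, mul_inv_cancel₀ hz0, one_pow,
        Quaternion.coeComplex_one]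
    have h1 : (x : Mat) * dg a b z⁻¹ = 1 := by
      rw [hx, dg, dg, Matrix.diagonal_mul_diagonal, ← Matrix.diagonal_one]
      congr 1
      funext i
      fin_cases i
      · exact hzz a
      · exact hzz b
    exact Units.inv_eq_of_mul_eq_one_right h1

/-- the Lie algebra of `Sp(2)` -/
def gg : Submodule ℝ Mat where
  carrier := {X | star X = -X}
  zero_mem' := by simp
  add_mem' := by
    intro X Y h1 k1
    simp only [Set.mem_ofPred_eq] at *
    rw [star_add, h1, k1]; abel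
  smul_mem' := by
    intro c X h1
    simp only [Set.mem_ofPred_eq] at *
    rw [← smul_neg, ← h1]
    ext i j : 1
    exact Quaternion.star_smul c (X j i)

/-- the generator `diag(a i, b i)` of the isotropy algebra -/
def h0 (a b : ℕ) : Mat := Matrix.diagonal ![(⟨0, a, 0, 0⟩ : ℍ[ℝ]), (⟨0, b, 0, 0⟩ : ℍ[ℝ])]

/-- the isotropy algebra -/
def hh (a b : ℕ) : Submodule ℝ Mat := Submodule.span ℝ {h0 a b}

/-- the orthogonal complement of the isotropy algebra -/
def m (a b : ℕ) : Submodule ℝ Mat where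
  carrier := {X | star X = -X ∧ (a : ℝ) * (X 0 0).imI + (b : ℝ) * (X 1 1).imI = 0}
  zero_mem' := by simp
  add_mem' := by
    rintro X Y ⟨h1, h3⟩ ⟨k1, k3⟩
    refine ⟨by rw [star_add, h1, k1]; abel, ?_⟩
    simp only [Matrix.add_apply, Quaternion.imI_add]
    linarith
  smul_mem' := by
    rintro c X ⟨h1, h3⟩
    refine ⟨?_, ?_⟩
    · rw [← smul_neg, ← h1]
      ext i j : 1
      exact Quaternion.star_smul c (X j i)
    · simp only [Matrix.smul_apply, Quaternion.imI_smul, smul_eq_mul]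
      linear_combination c * h3

/-- `Re tr X` -/
def retr : Mat →ₗ[ℝ] ℝ where
  toFun X := (X 0 0).re + (X 1 1).re
  map_add' X Y := by simp only [Matrix.add_apply, Quaternion.re_add]; ring
  map_smul' r X := by
    simp only [Matrix.smul_apply, Quaternion.re_smul, smul_eq_mul, RingHom.id_apply]; ring

/-- the invariant form `Q(X, Y) = - Re tr (X Y)` -/
def QQ : Mat →ₗ[ℝ] Mat →ₗ[ℝ] ℝ := -((LinearMap.mul ℝ Mat).compr₂ retr)

theorem QQ_apply (X Y : Mat) : QQ X Y = -retr (X * Y) := by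
  simp [QQ]


open Pool.Agent.Helper93.Fin.Sp3 (nexp nexp_mul_neg nexp_neg_mul nexp_zero hasDerivAt_nexp norm_coeC
  iq iq_re iq_imI iq_imJ iq_imK)

theorem h0_eq (a b : ℕ) : h0 a b = Matrix.diagonal ![iq a, iq b] := rfl

variable {a b : ℕ}

theorem mem_gg' {X : Mat} : X ∈ gg ↔ star X = -X := Iff.rfl

theorem mem_m' {X : Mat} :
    X ∈ m a b ↔ star X = -X ∧ (a : ℝ) * (X 0 0).imI + (b : ℝ) * (X 1 1).imI = 0 := Iff.rfl

theorem star_smul_mat (t : ℝ) (X : Mat) : star (t • X) = t • star X := by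
  ext i j : 1
  rw [Matrix.star_apply, Matrix.smul_apply, Matrix.smul_apply, Matrix.star_apply]
  exact Quaternion.star_smul t (X j i)

theorem retr_apply (X : Mat) : retr X = (X 0 0).re + (X 1 1).re := rfl

theorem retr_mul_comm (X Y : Mat) : retr (X * Y) = retr (Y * X) := by
  simp only [retr_apply, Matrix.mul_apply, Fin.sum_univ_two, Quaternion.re_add, Quaternion.re_mul]
  ring

theorem QQ_comm (X Y : Mat) : QQ X Y = QQ Y X := by
  rw [QQ_apply, QQ_apply, retr_mul_comm]

theorem QQ_inv (X Y Z : Mat) : QQ ⁅X, Y⁆ Z = QQ X ⁅Y, Z⁆ := by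
  rw [QQ_apply, QQ_apply, Ring.lie_def, Ring.lie_def]
  have h1 : retr (Y * X * Z) = retr (X * (Z * Y)) := by
    rw [mul_assoc, retr_mul_comm, mul_assoc]
  have h2 : (X * Y - Y * X) * Z = X * (Y * Z) - Y * X * Z := by noncomm_ring
  have h3 : X * (Y * Z - Z * Y) = X * (Y * Z) - X * (Z * Y) := by noncomm_ring
  rw [h2, h3, map_sub, map_sub, h1]

theorem QQ_h0 (X : Mat) : QQ (h0 a b) X = (a : ℝ) * (X 0 0).imI + (b : ℝ) * (X 1 1).imI := by
  rw [QQ_apply, retr_apply, h0_eq, Matrix.diagonal_mul, Matrix.diagonal_mul]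
  simp [Quaternion.re_mul]
  ring

theorem QQ_h0' (X : Mat) : QQ X (h0 a b) = (a : ℝ) * (X 0 0).imI + (b : ℝ) * (X 1 1).imI := by
  rw [QQ_comm, QQ_h0]

theorem QQ_h0_h0 : QQ (h0 a b) (h0 a b) = (a : ℝ) ^ 2 + (b : ℝ) ^ 2 := by
  rw [QQ_h0, h0_eq]
  simp
  ring

theorem star_h0 : star (h0 a b) = -h0 a b := by
  rw [h0_eq, Matrix.star_eq_conjTranspose, Matrix.diagonal_conjTranspose, Matrix.diagonal_neg]
  congr 1
  funext i
  fin_cases i
  · ext <;> simp
  · ext <;> simp

theorem half_sub_star {X : Mat} (h1 : star X = -X) : (1 / 2 : ℝ) • (X - star X) = X := by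
  rw [h1, sub_neg_eq_add, ← two_smul ℝ X, smul_smul]; norm_num

/-- the projection to `m` -/
def PP (a b : ℕ) : Mat →L[ℝ] m a b :=
  LinearMap.toContinuousLinearMap
    { toFun := fun X => ⟨(1 / 2 : ℝ) • (X - star X) -
        (QQ X (h0 a b) / QQ (h0 a b) (h0 a b)) • h0 a b, by
          refine ⟨?_, ?_⟩
          · rw [star_sub, star_smul_mat, star_smul_mat, star_sub, star_star, star_h0]
            module
          · rw [← QQ_h0' (a := a) (b := b), map_sub, LinearMap.sub_apply, map_smul,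
              LinearMap.smul_apply, map_smul, LinearMap.smul_apply, QQ_h0' (a := a) (b := b)]
            by_cases h : QQ (h0 a b) (h0 a b) = 0
            · have h1 : (a : ℝ) ^ 2 + (b : ℝ) ^ 2 = 0 := by rw [← QQ_h0_h0]; exact h
              have ha : (a : ℝ) = 0 := by nlinarith [sq_nonneg (a : ℝ), sq_nonneg (b : ℝ)]
              have hb : (b : ℝ) = 0 := by nlinarith [sq_nonneg (a : ℝ), sq_nonneg (b : ℝ)]
              rw [ha, hb, h]; simp
            · rw [smul_eq_mul, smul_eq_mul, div_mul_cancel₀ _ h, QQ_h0' (a := a) (b := b)]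
              simp only [Matrix.sub_apply, Matrix.star_apply, Quaternion.imI_sub,
                Quaternion.imI_star]
              ring⟩
      map_add' := fun X Y => by
        apply Subtype.ext
        show (1 / 2 : ℝ) • (X + Y - star (X + Y)) -
          (QQ (X + Y) (h0 a b) / QQ (h0 a b) (h0 a b)) • h0 a b = _
        rw [star_add, map_add, LinearMap.add_apply, Submodule.coe_add]
        simp only
        module
      map_smul' := fun r X => by
        apply Subtype.ext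
        show (1 / 2 : ℝ) • (r • X - star (r • X)) -
          (QQ (r • X) (h0 a b) / QQ (h0 a b) (h0 a b)) • h0 a b = _
        rw [star_smul_mat, map_smul, LinearMap.smul_apply, smul_eq_mul, RingHom.id_apply,
          Submodule.coe_smul]
        simp only
        module }

theorem PP_coe (X : Mat) : (PP a b X : Mat) = (1 / 2 : ℝ) • (X - star X) -
    (QQ X (h0 a b) / QQ (h0 a b) (h0 a b)) • h0 a b := rfl

/-- `Re tr u⁴` -/
def s4 (X : Mat) : ℝ := retr (X ^ 4)

/-- `B u = 4 (u³/|u|² + s₄ u/|u|⁴)` -/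
def BB (a b : ℕ) (u : m a b) : Mat :=
  (4 : ℝ) • ((QQ (u : Mat) u)⁻¹ • (u : Mat) ^ 3 +
    (s4 (u : Mat) * ((QQ (u : Mat) u) ^ 2)⁻¹) • (u : Mat))

/-- `c u = 4 s₄/|u|⁴ - 3 = cos 4θ` -/
def cc (a b : ℕ) (u : m a b) : ℝ := 4 * s4 (u : Mat) * ((QQ (u : Mat) u) ^ 2)⁻¹ - 3

/-! ### Lie algebras -/

theorem star_nexp (X : Mat) : star (nexp X) = nexp (star X) :=
  (Matrix.exp_conjTranspose X).symm

theorem nexp_diag (v : Fin 2 → ℍ[ℝ]) :
    nexp (Matrix.diagonal v : Mat) = Matrix.diagonal (fun i => NormedSpace.exp (v i)) := by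
  have h1 : nexp (Matrix.diagonal v : Mat) = Matrix.diagonal (NormedSpace.exp v) :=
    Matrix.exp_diagonal v
  rw [h1]
  let _ : NormedAlgebra ℚ ℍ[ℝ] := NormedAlgebra.restrictScalars ℚ ℝ ℍ[ℝ]
  rw [Pi.exp_def]

theorem lin_zero {F : Type*} [NormedAddCommGroup F] [NormedSpace ℝ F] (X : Mat)
    (l : Mat →ₗ[ℝ] F) (h : ∀ t : ℝ, l (nexp (t • X)) = 0) : l X = 0 := by
  have h1 : HasDerivAt (fun t : ℝ => nexp (t • X)) X 0 := hasDerivAt_nexp X
  have h2 := (LinearMap.toContinuousLinearMap l).hasFDerivAt.comp_hasDerivAt 0 h1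
  have h3 : (⇑(LinearMap.toContinuousLinearMap l) ∘ fun t : ℝ => nexp (t • X)) =
      fun _ => 0 := by
    funext t; exact h t
  rw [h3] at h2
  exact h2.unique (hasDerivAt_const (0 : ℝ) (0 : F))

/-- `exp X` as a unit -/
def expU (X : Mat) : Matˣ := ⟨nexp X, nexp (-X), nexp_mul_neg X, nexp_neg_mul X⟩

theorem gg_lieAlg (X : Mat) : X ∈ gg ↔ X ∈ lieAlg G := by
  constructor
  · intro h t
    refine ⟨expU (t • X), ?_, rfl⟩
    show star (nexp (t • X)) * nexp (t • X) = 1
    have h1 : star (t • X) = -(t • X) := gg.smul_mem t h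
    rw [star_nexp, h1, nexp_neg_mul]
  · intro h
    have h1 : ∀ t : ℝ, nexp (t • star X) = nexp (t • (-X)) := by
      intro t
      obtain ⟨g, hg, hgX⟩ := h t
      have hgX' : (g : Mat) = nexp (t • X) := hgX
      have hg0 : star (g : Mat) * (g : Mat) = 1 := hg
      rw [hgX', star_nexp, star_smul_mat] at hg0
      have h3 : nexp (t • star X) * (nexp (t • X) * nexp (-(t • X))) = nexp (-(t • X)) := by
        rw [← mul_assoc, hg0, one_mul]
      rw [nexp_mul_neg, mul_one] at h3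
      rw [h3, smul_neg]
    have hd := hasDerivAt_nexp (star X)
    have hd' := hasDerivAt_nexp (-X)
    have h4 : (fun t : ℝ => nexp (t • star X)) = fun t : ℝ => nexp (t • (-X)) := funext h1
    rw [h4] at hd
    exact hd.unique hd'

theorem star_coeC_mul {z : ℂ} (hz : ‖z‖ = 1) : star ((z : ℂ) : ℍ[ℝ]) * (z : ℍ[ℝ]) = 1 := by
  rw [Quaternion.star_mul_self]
  have : Quaternion.normSq ((z : ℂ) : ℍ[ℝ]) = 1 := by
    rw [Quaternion.normSq_eq_norm_mul_self, norm_coeC, hz, one_mul]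
  rw [this]; simp

theorem star_of_mem_H {g : Matˣ} (hg : g ∈ H a b) : star (g : Mat) * (g : Mat) = 1 := by
  obtain ⟨z, hz, h⟩ := hg
  rw [h, dg, Matrix.star_eq_conjTranspose, Matrix.diagonal_conjTranspose,
    Matrix.diagonal_mul_diagonal, ← Matrix.diagonal_one]
  congr 1
  funext i
  fin_cases i
  · exact star_coeC_mul (by rw [norm_pow, hz, one_pow])
  · exact star_coeC_mul (by rw [norm_pow, hz, one_pow])

theorem H_le_G : H a b ≤ G := fun _ hg => star_of_mem_H hg

theorem inv_of_mem_H {g : Matˣ} (hg : g ∈ H a b) : ((g⁻¹ : Matˣ) : Mat) = star (g : Mat) :=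
  (Units.mul_eq_one_iff_eq_inv.mp (star_of_mem_H hg)).symm

/-- entry as a linear map -/
def ent (i j : Fin 2) : Mat →ₗ[ℝ] ℍ[ℝ] where
  toFun X := X i j
  map_add' _ _ := rfl
  map_smul' _ _ := rfl

theorem iq_coe (θ : ℝ) : iq θ = ((θ * Complex.I : ℂ) : ℍ[ℝ]) := by
  ext <;> simp

theorem exp_iq (θ : ℝ) : NormedSpace.exp (iq θ) = ((Complex.exp (θ * Complex.I) : ℂ) : ℍ[ℝ]) := by
  have hcont : Continuous (Quaternion.ofComplex : ℂ →ₐ[ℝ] ℍ[ℝ]) :=
    (Quaternion.ofComplex : ℂ →ₐ[ℝ] ℍ[ℝ]).toLinearMap.continuous_of_finiteDimensional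
  let _ : NormedAlgebra ℚ ℍ[ℝ] := NormedAlgebra.restrictScalars ℚ ℝ ℍ[ℝ]
  have h := NormedSpace.map_exp (Quaternion.ofComplex : ℂ →ₐ[ℝ] ℍ[ℝ]) hcont (θ * Complex.I : ℂ)
  rw [← Complex.exp_eq_exp_ℂ] at h
  rw [iq_coe]
  exact h.symm

theorem dg_apply_ne (z : ℂ) {i j : Fin 2} (h : i ≠ j) : dg a b z i j = 0 := by
  rw [dg, Matrix.diagonal_apply_ne _ h]

theorem hh_lieAlg (ha : 1 ≤ a) (hb : 1 ≤ b) (X : Mat) : X ∈ hh a b ↔ X ∈ lieAlg (H a b) := by
  constructor
  · intro hX t
    obtain ⟨r, rfl⟩ := Submodule.mem_span_singleton.mp hX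
    refine ⟨expU (t • r • h0 a b), ⟨Complex.exp ((t * r : ℝ) * Complex.I), ?_, ?_⟩, rfl⟩
    · exact Complex.norm_exp_ofReal_mul_I _
    · show nexp (t • r • h0 a b) = _
      have e : t • r • h0 a b = Matrix.diagonal ![iq (a * (t * r)), iq (b * (t * r))] := by
        rw [h0_eq, ← Matrix.diagonal_smul, ← Matrix.diagonal_smul]
        congr 1
        funext i
        fin_cases i
        · ext <;> simp; ring
        · ext <;> simp; ring
      rw [e, nexp_diag, dg]
      congr 1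
      funext i
      have key : ∀ n : ℕ, NormedSpace.exp (iq (n * (t * r))) =
          (((Complex.exp ((t * r : ℝ) * Complex.I)) ^ n : ℂ) : ℍ[ℝ]) := by
        intro n
        rw [exp_iq, ← Complex.exp_nat_mul]
        congr 2
        push_cast
        ring
      fin_cases i
      · exact key a
      · exact key b
  · intro h
    have hX : star X = -X := (gg_lieAlg X).mpr fun t => by
      obtain ⟨g, hg, hgX⟩ := h t
      exact ⟨g, H_le_G hg, hgX⟩
    have hoff : ∀ i j : Fin 2, i ≠ j → X i j = 0 := by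
      intro i j hij
      apply lin_zero X (ent i j)
      intro t
      obtain ⟨g, ⟨z, -, hg⟩, hgX⟩ := h t
      have hgX' : (g : Mat) = nexp (t • X) := hgX
      rw [← hgX', hg]
      exact dg_apply_ne z hij
    have hd : X = Matrix.diagonal ![X 0 0, X 1 1] := by
      ext i j : 1
      by_cases hij : i = j
      · subst hij
        rw [Matrix.diagonal_apply_eq]
        fin_cases i <;> rfl
      · rw [hoff i j hij, Matrix.diagonal_apply_ne _ hij]
    have hJ : ∀ i : Fin 2, (X i i).imJ = 0 := by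
      intro i
      apply lin_zero X (Sp3.cJ ∘ₗ ent i i)
      intro t
      obtain ⟨g, ⟨z, -, hg⟩, hgX⟩ := h t
      have hgX' : (g : Mat) = nexp (t • X) := hgX
      rw [← hgX', hg]
      fin_cases i
      · show (dg a b z 0 0).imJ = 0
        simp [dg]
      · show (dg a b z 1 1).imJ = 0
        simp [dg]
    have hK : ∀ i : Fin 2, (X i i).imK = 0 := by
      intro i
      apply lin_zero X (Sp3.cK ∘ₗ ent i i)
      intro t
      obtain ⟨g, ⟨z, -, hg⟩, hgX⟩ := h t
      have hgX' : (g : Mat) = nexp (t • X) := hgX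
      rw [← hgX', hg]
      fin_cases i
      · show (dg a b z 0 0).imK = 0
        simp [dg]
      · show (dg a b z 1 1).imK = 0
        simp [dg]
    have hre : ∀ i, (X i i).re = 0 := by
      intro i
      have h1 := congrFun (congrFun hX i) i
      rw [Matrix.star_apply, Matrix.neg_apply] at h1
      have h2 := congrArg QuaternionAlgebra.re h1
      simp at h2
      linarith
    have hrel : (b : ℝ) • X 0 0 = (a : ℝ) • X 1 1 := by
      have hfun : ∀ t : ℝ, nexp (t • ((b : ℝ) • X 0 0)) = nexp (t • ((a : ℝ) • X 1 1)) := by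
        intro t
        obtain ⟨g, ⟨z, -, hg⟩, hgX⟩ := h t
        have hgX' : (g : Mat) = nexp (t • X) := hgX
        have e : nexp (t • X) = Matrix.diagonal (fun i => NormedSpace.exp (t • X i i)) := by
          conv_lhs => rw [hd, ← Matrix.diagonal_smul, nexp_diag]
          congr 1
          funext i
          fin_cases i <;> rfl
        rw [hgX', e, dg] at hg
        have e0 := congrFun (congrFun hg 0) 0
        have e1 := congrFun (congrFun hg 1) 1
        rw [Matrix.diagonal_apply_eq, Matrix.diagonal_apply_eq] at e0 e1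
        simp only [Matrix.cons_val_zero, Matrix.cons_val_one] at e0 e1
        let _ : NormedAlgebra ℚ ℍ[ℝ] := NormedAlgebra.restrictScalars ℚ ℝ ℍ[ℝ]
        have k0 : nexp (t • ((b : ℝ) • X 0 0)) = (NormedSpace.exp (t • X 0 0)) ^ b := by
          rw [← NormedSpace.exp_nsmul]
          show NormedSpace.exp _ = NormedSpace.exp _
          congr 1
          rw [smul_comm, Nat.cast_smul_eq_nsmul]
        have k1 : nexp (t • ((a : ℝ) • X 1 1)) = (NormedSpace.exp (t • X 1 1)) ^ a := by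
          rw [← NormedSpace.exp_nsmul]
          show NormedSpace.exp _ = NormedSpace.exp _
          congr 1
          rw [smul_comm, Nat.cast_smul_eq_nsmul]
        rw [k0, k1, e0, e1]
        have : ((z ^ a : ℂ) : ℍ[ℝ]) ^ b = ((z ^ b : ℂ) : ℍ[ℝ]) ^ a := by
          have c1 : ∀ (w : ℂ) (n : ℕ), ((w : ℂ) : ℍ[ℝ]) ^ n = ((w ^ n : ℂ) : ℍ[ℝ]) := by
            intro w n
            exact (map_pow (Quaternion.ofComplex : ℂ →ₐ[ℝ] ℍ[ℝ]) w n).symm
          rw [c1, c1, ← pow_mul, ← pow_mul, mul_comm]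
        exact this
      have hd0 := hasDerivAt_nexp ((b : ℝ) • X 0 0)
      have hd1 := hasDerivAt_nexp ((a : ℝ) • X 1 1)
      have h4 : (fun t : ℝ => nexp (t • ((b : ℝ) • X 0 0))) =
          fun t : ℝ => nexp (t • ((a : ℝ) • X 1 1)) := funext hfun
      rw [h4] at hd0
      exact hd0.unique hd1
    have hrel' : (b : ℝ) * (X 0 0).imI = (a : ℝ) * (X 1 1).imI := by
      have := congrArg QuaternionAlgebra.imI hrel
      simpa using this
    have ha' : (a : ℝ) ≠ 0 := by
      have : (1 : ℝ) ≤ a := by exact_mod_cast ha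
      positivity
    refine Submodule.mem_span_singleton.mpr ⟨(X 0 0).imI / a, ?_⟩
    rw [hd, h0_eq, ← Matrix.diagonal_smul]
    congr 1
    funext i
    fin_cases i
    · show ((X 0 0).imI / a) • iq a = X 0 0
      ext
      · simp [hre]
      · simp; field_simp
      · simp [hJ]
      · simp [hK]
    · show ((X 0 0).imI / a) • iq b = X 1 1
      ext
      · simp [hre]
      · simp; field_simp; linarith
      · simp [hJ]
      · simp [hK]

/-! ### the reductive decomposition -/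

theorem lie_gg {X Y : Mat} (hX : X ∈ gg) (hY : Y ∈ gg) : ⁅X, Y⁆ ∈ gg := by
  have h1 : star X = -X := hX
  have h2 : star Y = -Y := hY
  show star ⁅X, Y⁆ = -⁅X, Y⁆
  rw [Ring.lie_def, star_sub, star_mul, star_mul, h1, h2]
  noncomm_ring

theorem QQ_self_of_gg {X : Mat} (hX : X ∈ gg) :
    QQ X X = Quaternion.normSq (X 0 0) + 2 * Quaternion.normSq (X 0 1) +
      Quaternion.normSq (X 1 1) := by
  have h1 : star X = -X := hX
  have e00 := congrFun (congrFun h1 0) 0
  have e11 := congrFun (congrFun h1 1) 1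
  have e10 := congrFun (congrFun h1 1) 0
  rw [Matrix.star_apply, Matrix.neg_apply] at e00 e11 e10
  have r00 := congrArg QuaternionAlgebra.re e00
  have r11 := congrArg QuaternionAlgebra.re e11
  have q1 := congrArg QuaternionAlgebra.re e10
  have q2 := congrArg QuaternionAlgebra.imI e10
  have q3 := congrArg QuaternionAlgebra.imJ e10
  have q4 := congrArg QuaternionAlgebra.imK e10
  simp only [Quaternion.re_star, Quaternion.imI_star, Quaternion.imJ_star, Quaternion.imK_star,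
    Quaternion.re_neg, Quaternion.imI_neg, Quaternion.imJ_neg, Quaternion.imK_neg, neg_inj]
    at r00 r11 q1 q2 q3 q4
  have z00 : (X 0 0).re = 0 := by linarith
  have z11 : (X 1 1).re = 0 := by linarith
  rw [QQ_apply, retr_apply]
  simp only [Matrix.mul_apply, Fin.sum_univ_two, Quaternion.re_add, Quaternion.re_mul,
    Quaternion.normSq_def', z00, z11]
  have q1' : (X 1 0).re = -(X 0 1).re := by linarith
  rw [q1', ← q2, ← q3, ← q4]
  ring

theorem QQ_pos {X : Mat} (hX : X ∈ gg) (h0 : X ≠ 0) : 0 < QQ X X := by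
  rw [QQ_self_of_gg hX]
  have n0 := Quaternion.normSq_nonneg (a := X 0 0)
  have n1 := Quaternion.normSq_nonneg (a := X 0 1)
  have n2 := Quaternion.normSq_nonneg (a := X 1 1)
  by_contra hc
  push Not at hc
  have z0 : Quaternion.normSq (X 0 0) = 0 := by linarith
  have z1 : Quaternion.normSq (X 0 1) = 0 := by linarith
  have z2 : Quaternion.normSq (X 1 1) = 0 := by linarith
  rw [Quaternion.normSq_eq_zero] at z0 z1 z2
  have h1 : star X = -X := hX
  have e10 := congrFun (congrFun h1 1) 0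
  rw [Matrix.star_apply, Matrix.neg_apply, z1, star_zero] at e10
  have z3 : X 1 0 = 0 := by
    rw [eq_comm, neg_eq_zero] at e10; exact e10
  apply h0
  ext i j : 1
  fin_cases i <;> fin_cases j
  · exact z0
  · exact z1
  · exact z3
  · exact z2

theorem mem_m_iff {X : Mat} : X ∈ m a b ↔ X ∈ gg ∧ QQ (h0 a b) X = 0 := by
  rw [QQ_h0]; exact Iff.rfl

theorem h0_gg : h0 a b ∈ gg := star_h0

theorem nData (ha : 1 ≤ a) (hb : 1 ≤ b) : NData gg (hh a b) (m a b) QQ (PP a b) := by
  have hq : QQ (h0 a b) (h0 a b) ≠ 0 := by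
    rw [QQ_h0_h0]
    have : (1 : ℝ) ≤ a := by exact_mod_cast ha
    positivity
  have hle : hh a b ≤ gg := by
    intro X hX
    obtain ⟨r, rfl⟩ := Submodule.mem_span_singleton.mp hX
    exact gg.smul_mem r h0_gg
  refine ⟨⟨fun X hX Y hY => lie_gg hX hY, fun X hX => hX.1, hle, ?_, ?_, ?_, ?_, ?_⟩,
    QQ_comm, QQ_inv, fun X hX h => QQ_pos hX h, ?_⟩
  · intro X hX Y hY
    obtain ⟨r, rfl⟩ := Submodule.mem_span_singleton.mp hX
    obtain ⟨s, rfl⟩ := Submodule.mem_span_singleton.mp hY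
    have : ⁅r • h0 a b, s • h0 a b⁆ = 0 := by
      rw [Ring.lie_def, smul_mul_smul_comm, smul_mul_smul_comm, mul_comm r s, sub_self]
    rw [this]
    exact Submodule.zero_mem _
  · intro z
    apply Subtype.ext
    show (1 / 2 : ℝ) • ((z : Mat) - star (z : Mat)) -
      (QQ (z : Mat) (h0 a b) / QQ (h0 a b) (h0 a b)) • h0 a b = (z : Mat)
    rw [half_sub_star z.2.1, QQ_comm, (mem_m_iff.mp z.2).2]
    simp
  · intro Y hY
    obtain ⟨r, rfl⟩ := Submodule.mem_span_singleton.mp hY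
    apply Subtype.ext
    show (1 / 2 : ℝ) • (r • h0 a b - star (r • h0 a b)) -
      (QQ (r • h0 a b) (h0 a b) / QQ (h0 a b) (h0 a b)) • h0 a b = 0
    rw [half_sub_star (gg.smul_mem r h0_gg : star (r • h0 a b) = -(r • h0 a b)),
      map_smul, LinearMap.smul_apply, smul_eq_mul, mul_div_assoc, div_self hq, mul_one, sub_self]
  · intro X hX
    show X - ((1 / 2 : ℝ) • (X - star X) -
      (QQ X (h0 a b) / QQ (h0 a b) (h0 a b)) • h0 a b) ∈ hh a b
    rw [half_sub_star hX, sub_sub_cancel]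
    exact Submodule.mem_span_singleton.mpr ⟨_, rfl⟩
  · intro Y hY z hz
    obtain ⟨r, rfl⟩ := Submodule.mem_span_singleton.mp hY
    refine mem_m_iff.mpr ⟨lie_gg (gg.smul_mem r h0_gg) hz.1, ?_⟩
    have e : ⁅r • h0 a b, z⁆ = r • ⁅h0 a b, z⁆ := by
      simp only [Ring.lie_def, smul_mul_assoc, mul_smul_comm, smul_sub]
    rw [e, map_smul, ← QQ_inv, Ring.lie_def, sub_self, map_zero, LinearMap.zero_apply, smul_zero]
  · intro Y hY Z hZ
    obtain ⟨r, rfl⟩ := Submodule.mem_span_singleton.mp hY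
    rw [map_smul, LinearMap.smul_apply, (mem_m_iff.mp hZ).2, smul_zero]


/-! ### the rank two facts -/

open Pool.Agent.helper46.FR (Qg Bgen cgen Qg_smul Bgen_smul cgen_smul Bgen_comm Bgen_smooth
  cgen_smooth fderiv_line line_deriv Bgen_deriv cgen_deriv)

theorem retr_one : retr (1 : Mat) = 2 := by
  rw [retr_apply]
  simp
  norm_num

/-- the square of a traceless Hermitian quaternionic matrix is a real scalar -/
theorem sq_scal {X : Mat} (hX : star X = X) (ht : retr X = 0) : ∃ s : ℝ, X * X = s • (1 : Mat) := by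
  have e00 := congrFun (congrFun hX 0) 0
  have e11 := congrFun (congrFun hX 1) 1
  have e10 := congrFun (congrFun hX 1) 0
  rw [Matrix.star_apply] at e00 e11 e10
  rw [retr_apply] at ht
  simp only [Quaternion.ext_iff, Quaternion.re_star, Quaternion.imI_star, Quaternion.imJ_star,
    Quaternion.imK_star] at e00 e11 e10
  obtain ⟨-, a1, a2, a3⟩ := e00
  obtain ⟨-, b1, b2, b3⟩ := e11
  obtain ⟨c0, c1, c2, c3⟩ := e10
  have a1' : (X 0 0).imI = 0 := by linarith
  have a2' : (X 0 0).imJ = 0 := by linarith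
  have a3' : (X 0 0).imK = 0 := by linarith
  have b1' : (X 1 1).imI = 0 := by linarith
  have b2' : (X 1 1).imJ = 0 := by linarith
  have b3' : (X 1 1).imK = 0 := by linarith
  have ht' : (X 1 1).re = -(X 0 0).re := by linarith
  refine ⟨(X 0 0).re ^ 2 + (X 0 1).re ^ 2 + (X 0 1).imI ^ 2 + (X 0 1).imJ ^ 2
    + (X 0 1).imK ^ 2, ?_⟩
  ext i j : 1
  rw [Matrix.mul_apply, Fin.sum_univ_two, Matrix.smul_apply]
  fin_cases i <;> fin_cases j <;>
    simp only [Fin.zero_eta, Fin.mk_one, Matrix.one_apply_eq, ne_eq, zero_ne_one, one_ne_zero,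
      not_false_eq_true, Matrix.one_apply_ne, smul_zero] <;>
    ext <;>
    simp [a1', a2', a3', b1', b2', b3', ht', ← c0, ← c1, ← c2, ← c3] <;> ring

theorem mul_scal {X Y : Mat} (hX : star X = X) (hY : star Y = Y) (tX : retr X = 0)
    (tY : retr Y = 0) (h : X * Y = Y * X) : ∃ s : ℝ, X * Y = s • (1 : Mat) := by
  obtain ⟨s1, h1⟩ := sq_scal hX tX
  obtain ⟨s2, h2⟩ := sq_scal hY tY
  obtain ⟨s3, h3⟩ := sq_scal (X := X + Y) (by rw [star_add, hX, hY]) (by rw [map_add, tX, tY, add_zero])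
  refine ⟨(s3 - s1 - s2) / 2, ?_⟩
  have e : (X + Y) * (X + Y) = X * X + Y * Y + (X * Y + X * Y) := by
    rw [add_mul, mul_add, mul_add, ← h]; abel
  rw [e, h1, h2] at h3
  have h4 : X * Y + X * Y = (s3 - s1 - s2) • (1 : Mat) := by
    rw [sub_smul, sub_smul, ← h3]; abel
  have h5 : X * Y = (1 / 2 : ℝ) • (X * Y + X * Y) := by
    rw [← two_smul ℝ (X * Y), smul_smul]; norm_num
  rw [h5, h4, smul_smul]
  congr 1
  ring

theorem smul_one_inj {r s : ℝ} (h : r • (1 : Mat) = s • (1 : Mat)) : r = s := by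
  have := congrArg retr h
  rw [map_smul, map_smul, retr_one, smul_eq_mul, smul_eq_mul] at this
  linarith

/-- the algebra of a flat flag -/
theorem flat_alg {u b : Mat} (hu : star u = -u) (hb : star b = -b) (huu : retr (u * u) = -1)
    (hbb : retr (b * b) = -1) (hub : retr (u * b) = 0) (hc : u * b = b * u) :
    ∃ y s : ℝ, u ^ 3 + retr (u ^ 4) • u = (-2 * y) • b ∧ retr (u ^ 4) = 2 * s + 1 / 2 ∧
      y ^ 2 = s * (1 / 4 - s) := by
  set S : Mat := u * u + (1 / 2 : ℝ) • 1 with hS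
  set T : Mat := b * b + (1 / 2 : ℝ) • 1 with hT
  have star_half : star ((1 / 2 : ℝ) • (1 : Mat)) = (1 / 2 : ℝ) • 1 := by
    rw [star_smul_mat, star_one]
  have sS : star S = S := by
    rw [hS, star_add, star_mul, hu, star_half]; noncomm_ring
  have sT : star T = T := by
    rw [hT, star_add, star_mul, hb, star_half]; noncomm_ring
  have sR : star (u * b) = u * b := by
    rw [star_mul, hu, hb, hc]; noncomm_ring
  have tS : retr S = 0 := by
    rw [hS, map_add, huu, map_smul, retr_one, smul_eq_mul]; norm_num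
  have tT : retr T = 0 := by
    rw [hT, map_add, hbb, map_smul, retr_one, smul_eq_mul]; norm_num
  have cub : Commute u b := hc
  have cS : Commute S u := by
    rw [hS]
    exact ((Commute.refl u).mul_left (Commute.refl u)).add_left ((Commute.one_left u).smul_left _)
  have cSb : Commute S b := by
    rw [hS]
    exact (cub.mul_left cub).add_left ((Commute.one_left b).smul_left _)
  have cSR : S * (u * b) = u * b * S := (cS.mul_right cSb)
  have cST : S * T = T * S := by
    have : Commute S T := by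
      rw [hT]
      exact (cSb.mul_right cSb).add_right ((Commute.one_right S).smul_right _)
    exact this
  obtain ⟨s, hs⟩ := mul_scal sS sS tS tS rfl
  obtain ⟨y, hy⟩ := mul_scal sS sR tS hub cSR
  obtain ⟨r, hr⟩ := mul_scal sR sR hub hub rfl
  obtain ⟨x, hx⟩ := mul_scal sS sT tS tT cST
  -- S + T = 0
  have e1 : u * b * (u * b) = S * T - (1 / 2 : ℝ) • S - (1 / 2 : ℝ) • T + (1 / 4 : ℝ) • 1 := by
    have e2 : u * b * (u * b) = (u * u) * (b * b) := by
      calc u * b * (u * b) = u * (b * u) * b := by noncomm_ring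
        _ = u * (u * b) * b := by rw [hc]
        _ = _ := by noncomm_ring
    have e3 : u * u = S - (1 / 2 : ℝ) • 1 := by rw [hS]; abel
    have e4 : b * b = T - (1 / 2 : ℝ) • 1 := by rw [hT]; abel
    rw [e2, e3, e4]
    simp only [sub_mul, mul_sub, smul_mul_assoc, mul_smul_comm, one_mul, mul_one]
    module
  rw [hr, hx] at e1
  have e5 := congrArg retr e1
  simp only [map_add, map_sub, map_smul, tS, tT, retr_one, smul_eq_mul] at e5
  have hrx : r = x + 1 / 4 := by linarith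
  have hST : S + T = 0 := by
    have h1 : (1 / 2 : ℝ) • (S + T) = 0 := by
      rw [hrx] at e1
      have : (1 / 2 : ℝ) • (S + T) = x • (1 : Mat) + (1 / 4 : ℝ) • 1 - (x + 1 / 4) • 1 := by
        rw [e1]; module
      rw [this]; module
    have h2 := congrArg (fun Z : Mat => (2 : ℝ) • Z) h1
    simp only [smul_smul, smul_zero] at h2
    norm_num at h2
    exact h2
  have hTS : T = -S := by rw [eq_neg_iff_add_eq_zero, add_comm]; exact hST
  have hxs : x = -s := by
    apply smul_one_inj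
    rw [← hx, hTS, mul_neg, hs, neg_smul]
  -- S u = -2 s u - 2 y b
  have e6 : S * u * (b * b) = y • b := by
    calc S * u * (b * b) = (S * (u * b)) * b := by noncomm_ring
      _ = y • b := by rw [hy, smul_mul_assoc, one_mul]
  have e7 : b * b = -S - (1 / 2 : ℝ) • 1 := by
    rw [← hTS, hT]; abel
  have e8 : S * u * S = s • u := by
    calc S * u * S = S * (S * u) := by rw [mul_assoc, ← cS.eq]
      _ = (S * S) * u := by rw [mul_assoc]
      _ = s • u := by rw [hs, smul_mul_assoc, one_mul]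
  rw [e7, mul_sub, mul_neg, e8, mul_smul_comm, mul_one] at e6
  have e9 : S * u = (-2 * s) • u - (2 * y) • b := by
    have : S * u = (-2 : ℝ) • (-(s • u) - (1 / 2 : ℝ) • (S * u)) - (2 * s) • u := by
      module
    rw [this, e6]
    module
  have e10 : u * u = S - (1 / 2 : ℝ) • 1 := by rw [hS]; abel
  have e11 : u ^ 3 = (-2 * s - 1 / 2) • u - (2 * y) • b := by
    calc u ^ 3 = (u * u) * u := by noncomm_ring
      _ = S * u - (1 / 2 : ℝ) • u := by rw [e10, sub_mul, smul_mul_assoc, one_mul]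
      _ = _ := by rw [e9]; module
  have e12 : retr (u ^ 4) = 2 * s + 1 / 2 := by
    have h1 : u ^ 4 = s • (1 : Mat) - S + (1 / 4 : ℝ) • 1 := by
      calc u ^ 4 = (u * u) * (u * u) := by noncomm_ring
        _ = S * S - S + (1 / 4 : ℝ) • 1 := by
          rw [e10]
          simp only [sub_mul, mul_sub, smul_mul_assoc, mul_smul_comm, one_mul, mul_one]
          module
        _ = _ := by rw [hs]
    rw [h1, map_add, map_sub, map_smul, map_smul, tS, retr_one, smul_eq_mul, smul_eq_mul]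
    ring
  refine ⟨y, s, ?_, e12, ?_⟩
  · rw [e11, e12]; module
  · have h1 : (S * (u * b)) * (S * (u * b)) = (S * S) * (u * b * (u * b)) := by
      calc (S * (u * b)) * (S * (u * b)) = S * ((u * b) * S) * (u * b) := by noncomm_ring
        _ = S * (S * (u * b)) * (u * b) := by rw [cSR]
        _ = _ := by noncomm_ring
    rw [hy, hs, hr, smul_mul_smul_comm, smul_mul_smul_comm, one_mul] at h1
    have h2 := smul_one_inj h1
    rw [hrx, hxs] at h2
    nlinarith

theorem BB_eq (u : m a b) : BB a b u = Bgen retr (u : Mat) := by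
  unfold BB Bgen Qg s4
  rw [QQ_apply]

theorem cc_eq (u : m a b) : cc a b u = cgen retr (u : Mat) := by
  unfold cc cgen Qg s4
  rw [QQ_apply]

theorem BB_fun : BB a b = fun u : m a b => Bgen retr (u : Mat) := funext BB_eq

theorem cc_fun : cc a b = fun u : m a b => cgen retr (u : Mat) := funext cc_eq

theorem Qg_eq (X : Mat) : Qg retr X = QQ X X := by
  unfold Qg; rw [QQ_apply]

theorem Qg_pos {u : m a b} (hu : u ≠ 0) : 0 < Qg retr (u : Mat) := by
  rw [Qg_eq]
  exact QQ_pos u.2.1 fun h => hu (Subtype.ext h)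

theorem star_pow3 {X : Mat} (hX : star X = -X) : star (X ^ 3) = -(X ^ 3) := by
  rw [star_pow, hX]; noncomm_ring

theorem Bgen_gg {X : Mat} (hX : X ∈ gg) : Bgen retr X ∈ gg := by
  unfold Bgen
  exact gg.smul_mem _ (gg.add_mem (gg.smul_mem _ (star_pow3 hX)) (gg.smul_mem _ hX))

theorem flat_cas {u v : Mat} (hu : star u = -u) (hv : star v = -v) (huu : QQ u u = 1)
    (hvv : QQ v v = 1) (huv : QQ u v = 0) (hc : ⁅u, v⁆ = 0) :
    Bgen retr u = QQ (Bgen retr u) v • v ∧ cgen retr u ^ 2 + QQ (Bgen retr u) v ^ 2 = 1 := by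
  rw [QQ_apply] at huu hvv huv
  obtain ⟨y, s, h1, h2, h3⟩ := flat_alg hu hv (by linarith) (by linarith) (by linarith)
    (by rwa [Ring.lie_def, sub_eq_zero] at hc)
  have hq : Qg retr u = 1 := by rw [Qg_eq, QQ_apply]; exact huu
  have hB : Bgen retr u = (-8 * y) • v := by
    unfold Bgen
    rw [hq, inv_one, one_smul, one_pow, inv_one, mul_one, h1, smul_smul]
    congr 1
    ring
  have hw : QQ (Bgen retr u) v = -8 * y := by
    rw [hB, map_smul, LinearMap.smul_apply, QQ_apply, hvv, smul_eq_mul, mul_one]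
  refine ⟨by rw [hw, hB], ?_⟩
  have hcc : cgen retr u = 8 * s - 1 := by
    unfold cgen
    rw [hq, h2]; norm_num; ring
  rw [hw, hcc]
  nlinarith

theorem cas (ha : 1 ≤ a) (hb : 1 ≤ b) :
    Cas gg (hh a b) (m a b) QQ (PP a b) (h0 a b) (BB a b) (cc a b) := by
  have hN := nData (a := a) (b := b) ha hb
  have hpos : ∀ u : m a b, u ≠ 0 → Qg retr (u : Mat) ≠ 0 := fun u hu => (Qg_pos hu).ne'
  have hBs : ContDiffOn ℝ ∞ (fun u : m a b => Bgen retr (u : Mat)) {0}ᶜ := Bgen_smooth hpos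
  have hcs : ContDiffOn ℝ ∞ (fun u : m a b => cgen retr (u : Mat)) {0}ᶜ := cgen_smooth hpos
  refine ⟨Submodule.mem_span_singleton_self _, fun Y hY => ?_, ?_, ?_, ?_, ?_, ?_, ?_, ?_, ?_, ?_, ?_⟩
  · obtain ⟨r, hr⟩ := Submodule.mem_span_singleton.mp hY
    exact ⟨r, hr.symm⟩
  · rw [BB_fun]; exact hBs
  · intro u
    rw [BB_eq]; exact Bgen_gg u.2.1
  · intro r u
    rw [BB_eq, BB_eq, Submodule.coe_smul, Bgen_smul]
  · intro u
    rw [BB_eq]; exact Bgen_comm _
  · intro u hu X hX hm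
    refine (congrArg (fun v : m a b => fderiv ℝ (BB a b) u v)
      (hN.red.P_m ⟨⁅(u : Mat), X⁆, hm⟩)).trans ?_
    show fderiv ℝ (BB a b) u (⟨⁅(u : Mat), X⁆, hm⟩ : m a b) = ⁅BB a b u, X⁆
    rw [BB_fun]
    refine fderiv_line hBs hu _ ?_
    have hx : HasDerivAt (fun t : ℝ => (u : Mat) + t • ⁅(u : Mat), X⁆) ⁅(u : Mat), X⁆ 0 :=
      line_deriv _ _
    have hx0 : (u : Mat) + (0 : ℝ) • ⁅(u : Mat), X⁆ = u := by rw [zero_smul, add_zero]
    have c1 : retr ((u : Mat) * ⁅(u : Mat), X⁆) = 0 := by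
      rw [Ring.lie_def, mul_sub, map_sub, retr_mul_comm (u : Mat) (X * u),
        retr_mul_comm (u : Mat) ((u : Mat) * X)]
      have e1 : retr (X * (u : Mat) * u) = retr ((u : Mat) * X * u) := by
        rw [mul_assoc, retr_mul_comm, mul_assoc, retr_mul_comm]
      rw [e1, sub_self]
    have c3 : retr ((u : Mat) ^ 3 * ⁅(u : Mat), X⁆) = 0 := by
      rw [Ring.lie_def, mul_sub, map_sub]
      have e1 : (u : Mat) ^ 3 * ((u : Mat) * X) = (u : Mat) ^ 4 * X := by noncomm_ring
      have e2 : retr ((u : Mat) ^ 3 * (X * (u : Mat))) = retr ((u : Mat) ^ 4 * X) := by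
        rw [← mul_assoc, retr_mul_comm]
        congr 1; noncomm_ring
      rw [e1, e2, sub_self]
    have key := Bgen_deriv retr_mul_comm hx (by simp only [hx0]; exact hpos u hu)
      (by simp only [hx0]; exact c1) (by simp only [hx0]; exact c3)
    simp only [hx0] at key
    refine key.congr_deriv ?_
    unfold Bgen
    simp only [Ring.lie_def, smul_mul_assoc, mul_smul_comm, add_mul, mul_add]
    rw [← smul_sub]
    congr 1
    have e4 : ((u : Mat) * X - X * u) * u * u + u * ((u : Mat) * X - X * u) * u +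
        u * u * ((u : Mat) * X - X * u) = (u : Mat) ^ 3 * X - X * (u : Mat) ^ 3 := by noncomm_ring
    rw [e4]
    module
  · rw [cc_fun]; exact hcs
  · intro r u hr
    rw [cc_eq, cc_eq, Submodule.coe_smul, cgen_smul hr]
  · intro u hu v
    have h1 : D1 (cc a b) u v = 16 * retr ((u : Mat) ^ 3 * v) * ((Qg retr (u : Mat)) ^ 2)⁻¹ +
      16 * retr ((u : Mat) ^ 4) * retr ((u : Mat) * v) * ((Qg retr (u : Mat)) ^ 3)⁻¹ := by
      unfold D1
      rw [cc_fun]
      refine fderiv_line hcs hu _ ?_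
      have hx : HasDerivAt (fun t : ℝ => (u : Mat) + t • (v : Mat)) (v : Mat) 0 := line_deriv _ _
      have hx0 : (u : Mat) + (0 : ℝ) • (v : Mat) = u := by rw [zero_smul, add_zero]
      have key := cgen_deriv retr_mul_comm hx (by simp only [hx0]; exact hpos u hu)
      simp only [hx0] at key
      exact key
    rw [h1, BB_eq, ← Qg_eq, QQ_apply]
    unfold Bgen
    simp only [smul_mul_assoc, add_mul, map_smul, map_add, smul_eq_mul]
    have := hpos u hu
    field_simp
    ring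
  · rintro u v ⟨h1, h2, h3, h4⟩
    rw [BB_eq]
    exact (flat_cas u.2.1 v.2.1 h1 h2 h3 h4).1
  · rintro u v ⟨h1, h2, h3, h4⟩
    rw [BB_eq, cc_eq]
    exact (flat_cas u.2.1 v.2.1 h1 h2 h3 h4).2

/-! ### the isotropy group -/

theorem coeC_comm (z w : ℂ) : (z : ℍ[ℝ]) * (w : ℍ[ℝ]) = (w : ℍ[ℝ]) * (z : ℍ[ℝ]) := by
  rw [← Quaternion.coeComplex_mul, ← Quaternion.coeComplex_mul, mul_comm]

theorem H_h0 {k : Matˣ} (hk : k ∈ H a b) : (k : Mat) * h0 a b = h0 a b * (k : Mat) := by
  obtain ⟨z, -, hz⟩ := hk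
  rw [hz, h0_eq, dg, Matrix.diagonal_mul_diagonal, Matrix.diagonal_mul_diagonal]
  congr 1
  funext i
  fin_cases i
  · show ((z ^ a : ℂ) : ℍ[ℝ]) * iq a = iq a * ((z ^ a : ℂ) : ℍ[ℝ])
    rw [iq_coe, coeC_comm]
  · show ((z ^ b : ℂ) : ℍ[ℝ]) * iq b = iq b * ((z ^ b : ℂ) : ℍ[ℝ])
    rw [iq_coe, coeC_comm]

theorem Adj_h0 {k : Matˣ} (hk : k ∈ H a b) : Adj k (h0 a b) = h0 a b := by
  show (k : Mat) * h0 a b * ((k⁻¹ : Matˣ) : Mat) = h0 a b
  rw [H_h0 hk, mul_assoc, Units.mul_inv, mul_one]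

theorem retr_Adj (k : Matˣ) (X : Mat) : retr (Adj k X) = retr X := by
  show retr ((k : Mat) * X * ((k⁻¹ : Matˣ) : Mat)) = retr X
  rw [retr_mul_comm, ← mul_assoc, Units.inv_mul, one_mul]

theorem Adj_mul (k : Matˣ) (X Y : Mat) : Adj k (X * Y) = Adj k X * Adj k Y := by
  show (k : Mat) * (X * Y) * ((k⁻¹ : Matˣ) : Mat) =
    (k : Mat) * X * ((k⁻¹ : Matˣ) : Mat) * ((k : Mat) * Y * ((k⁻¹ : Matˣ) : Mat))
  calc (k : Mat) * (X * Y) * ((k⁻¹ : Matˣ) : Mat) =
      (k : Mat) * X * 1 * Y * ((k⁻¹ : Matˣ) : Mat) := by noncomm_ring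
    _ = (k : Mat) * X * (((k⁻¹ : Matˣ) : Mat) * (k : Mat)) * Y * ((k⁻¹ : Matˣ) : Mat) := by
      rw [Units.inv_mul]
    _ = _ := by noncomm_ring

theorem Adj_pow (k : Matˣ) (X : Mat) (n : ℕ) : (Adj k X) ^ n = Adj k (X ^ n) := by
  induction n with
  | zero =>
    show (1 : Mat) = (k : Mat) * 1 * ((k⁻¹ : Matˣ) : Mat)
    rw [mul_one, Units.mul_inv]
  | succ n ih => rw [pow_succ, ih, pow_succ, Adj_mul]

theorem Adj_smul (k : Matˣ) (r : ℝ) (X : Mat) : Adj k (r • X) = r • Adj k X := by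
  show (k : Mat) * (r • X) * ((k⁻¹ : Matˣ) : Mat) = r • ((k : Mat) * X * ((k⁻¹ : Matˣ) : Mat))
  rw [mul_smul_comm, smul_mul_assoc]

theorem Adj_add (k : Matˣ) (X Y : Mat) : Adj k (X + Y) = Adj k X + Adj k Y := by
  show (k : Mat) * (X + Y) * ((k⁻¹ : Matˣ) : Mat) = _
  rw [mul_add, add_mul]

theorem QQ_Adj (k : Matˣ) (X Y : Mat) : QQ (Adj k X) (Adj k Y) = QQ X Y := by
  rw [QQ_apply, QQ_apply, ← Adj_mul, retr_Adj]

theorem Adj_gg {k : Matˣ} (hk : k ∈ H a b) {X : Mat} (hX : X ∈ gg) : Adj k X ∈ gg := by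
  have h1 : star X = -X := hX
  show star ((k : Mat) * X * ((k⁻¹ : Matˣ) : Mat)) = -((k : Mat) * X * ((k⁻¹ : Matˣ) : Mat))
  rw [inv_of_mem_H hk, star_mul, star_mul, star_star, h1]
  noncomm_ring

theorem QQ_h0_Adj {k : Matˣ} (hk : k ∈ H a b) (X : Mat) :
    QQ (h0 a b) (Adj k X) = QQ (h0 a b) X := by
  conv_lhs => rw [← Adj_h0 hk]
  exact QQ_Adj k _ _

theorem grpD (ha : 1 ≤ a) (hb : 1 ≤ b) :
    GrpD (H a b) (hh a b) (m a b) QQ (h0 a b) (BB a b) (cc a b) := by
  have hQ : ∀ (k : Matˣ) (X : Mat), Qg retr (Adj k X) = Qg retr X := by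
    intro k X
    rw [Qg_eq, Qg_eq, QQ_Adj]
  refine ⟨fun X hX => (hh_lieAlg ha hb X).mp hX, ?_, fun k hk => Adj_h0 hk,
    fun k hk X => QQ_h0_Adj hk X, fun k _ Z _ => QQ_Adj k Z Z, ?_, ?_⟩
  · intro k hk Z hZ
    exact mem_m_iff.mpr ⟨Adj_gg hk hZ.1, by rw [QQ_h0_Adj hk]; exact (mem_m_iff.mp hZ).2⟩
  · intro k hk u v huv
    rw [BB_eq, BB_eq, huv]
    unfold Bgen
    rw [hQ, Adj_pow, Adj_pow, retr_Adj, Adj_smul, Adj_add, Adj_smul, Adj_smul]
  · intro k hk u v huv
    rw [cc_eq, cc_eq, huv]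
    unfold cgen
    rw [hQ, Adj_pow, retr_Adj]

end Pool.Agent.helper79.FR.Sp2
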