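import Mathlib

/-!
# MP_f09395_gt, regular part: abstract compactness lemmas (module C1..C4)

C1 `pos_add_sq`, C2 `hb_exists`, C3 `rot_exists`, C4 `lam_exists`.
Statements by helper79, proofs by helper46.
-/

noncomputable section

namespace Pool.Agent.helper79.FR

open scoped ContDiff
open Filter Topology

private theorem pos_add_sq_aux {X : Type*} [TopologicalSpace X] [CompactSpace X] {f g : X → ℝ}
    (hf : Continuous f) (hg : Continuous g) (h : ∀ x, g x = 0 → 0 < f x) :
    ∃ C > 0, ∃ c > 0, ∀ x, c ≤ f x + C * g x ^ 2 := by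
  by_cases hX : IsEmpty X
  · exact ⟨1, one_pos, 1, one_pos, fun x => (hX.false x).elim⟩
  rw [not_isEmpty_iff] at hX
  -- lower bound of f
  obtain ⟨x0, -, hx0⟩ := isCompact_univ.exists_isMinOn Set.univ_nonempty hf.continuousOn
  have hx0' : ∀ x, f x0 ≤ f x := fun x => hx0 (Set.mem_univ x)
  have hKc : IsCompact {x : X | f x ≤ 0} := (isClosed_le hf continuous_const).isCompact
  have key : ∃ C > 0, ∀ x, 0 < f x + C * g x ^ 2 := by
    by_cases hne : {x : X | f x ≤ 0}.Nonempty
    · obtain ⟨x1, hx1, hmin⟩ := hKc.exists_isMinOn hne (hg.pow 2).continuousOn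
      have hg1 : 0 < g x1 ^ 2 := by
        have : g x1 ≠ 0 := fun h0 => absurd (h x1 h0) (not_lt.mpr hx1)
        positivity
      refine ⟨(|f x0| + 1) / g x1 ^ 2, by positivity, fun x => ?_⟩
      by_cases hx : f x ≤ 0
      · have h1 : g x1 ^ 2 ≤ g x ^ 2 := hmin hx
        have h2 : (|f x0| + 1) ≤ (|f x0| + 1) / g x1 ^ 2 * g x ^ 2 := by
          rw [div_mul_eq_mul_div, le_div_iff₀ hg1]
          exact mul_le_mul_of_nonneg_left h1 (by positivity)
        have h3 := hx0' x
        have h4 := neg_abs_le (f x0)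
        linarith
      · push Not at hx
        have : 0 ≤ (|f x0| + 1) / g x1 ^ 2 * g x ^ 2 := by positivity
        linarith
    · refine ⟨1, one_pos, fun x => ?_⟩
      have : 0 < f x := by
        by_contra hc
        exact hne ⟨x, not_lt.mp hc⟩
      positivity
  obtain ⟨C, hC, hCf⟩ := key
  obtain ⟨x2, -, hx2⟩ := isCompact_univ.exists_isMinOn Set.univ_nonempty
    (hf.add (continuous_const.mul (hg.pow 2))).continuousOn (f := fun x => f x + C * g x ^ 2)
  exact ⟨C, hC, f x2 + C * g x2 ^ 2, hCf x2, fun x => hx2 (Set.mem_univ x)⟩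

/-- quantitative form of C1 -/
theorem pos_add_sq' {X : Type*} [TopologicalSpace X] {K : Set X} (hK : IsCompact K) {f g : X → ℝ}
    (hf : ContinuousOn f K) (hg : ContinuousOn g K) (h : ∀ x ∈ K, g x = 0 → 0 < f x) :
    ∃ C > 0, ∃ c > 0, ∀ x ∈ K, c ≤ f x + C * g x ^ 2 := by
  have : CompactSpace K := isCompact_iff_compactSpace.mp hK
  obtain ⟨C, hC, c, hc, hx⟩ := pos_add_sq_aux (X := K) (continuousOn_iff_continuous_domRestrict.mp hf)
    (continuousOn_iff_continuous_domRestrict.mp hg) (fun x hx => h x x.2 hx)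
  exact ⟨C, hC, c, hc, fun x hxK => hx ⟨x, hxK⟩⟩

/-- C1 -/
theorem pos_add_sq {X : Type*} [TopologicalSpace X] {K : Set X} (hK : IsCompact K) {f g : X → ℝ}
    (hf : ContinuousOn f K) (hg : ContinuousOn g K) (h : ∀ x ∈ K, g x = 0 → 0 < f x) :
    ∃ C > 0, ∀ x ∈ K, 0 < f x + C * g x ^ 2 := by
  obtain ⟨C, hC, c, hc, hx⟩ := pos_add_sq' hK hf hg h
  exact ⟨C, hC, fun x hxK => hc.trans_le (hx x hxK)⟩

private theorem hb_aux {X : Type*} [TopologicalSpace X] [CompactSpace X]
    {a : ℕ → X → ℝ} (ha : ∀ j, Continuous (a j)) :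
    ∀ n i : ℕ, (∀ x, ∃ j, 1 ≤ j ∧ j ≤ i + n + 1 ∧ a j x ≠ 0) →
      ∃ k : ℕ → ℝ, ∀ x, (∀ j, 1 ≤ j → j ≤ i + 1 → a j x = 0) →
        0 < ∑ j ∈ Finset.range n, k j * (a (i + j + 2) x ^ 2 + a (i + j + 1) x * a (i + j + 3) x) := by
  intro n
  induction n with
  | zero =>
    intro i h
    refine ⟨fun _ => 0, fun x hx => ?_⟩
    obtain ⟨j, h1, h2, h3⟩ := h x
    exact absurd (hx j h1 (by omega)) h3
  | succ n ih =>
    intro i h
    obtain ⟨k', hk'⟩ := ih (i + 1) (fun x => by
      obtain ⟨j, h1, h2, h3⟩ := h x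
      exact ⟨j, h1, by omega, h3⟩)
    have hZ : IsCompact {x : X | ∀ j, 1 ≤ j → j ≤ i + 1 → a j x = 0} := by
      refine IsClosed.isCompact ?_
      simp only [Set.ofPred_forall]
      exact isClosed_iInter fun j => isClosed_iInter fun _ => isClosed_iInter fun _ =>
        isClosed_eq (ha j) continuous_const
    have hcont : Continuous (fun x => ∑ j ∈ Finset.range n,
        k' j * (a (i + 1 + j + 2) x ^ 2 + a (i + 1 + j + 1) x * a (i + 1 + j + 3) x)) :=
      continuous_finsetSum _ fun j _ => continuous_const.mul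
        (((ha _).pow 2).add ((ha _).mul (ha _)))
    obtain ⟨C, hC, hpos⟩ := pos_add_sq hZ hcont.continuousOn (ha (i + 2)).continuousOn
      (fun x hx hx2 => hk' x (fun j h1 h2 => by
        rcases Nat.lt_or_ge j (i + 2) with h3 | h3
        · exact hx j h1 (by omega)
        · have : j = i + 2 := by omega
          rw [this]; exact hx2))
    refine ⟨fun j => if j = 0 then C else k' (j - 1), fun x hx => ?_⟩
    have h1 := hpos x hx
    rw [Finset.sum_range_succ']
    have h2 : a (i + 1) x = 0 := hx (i + 1) (by omega) le_rfl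
    have h3 : ∀ j, (if j + 1 = 0 then C else k' (j + 1 - 1)) = k' j := fun j => by simp
    simp only [h3, if_true, h2, zero_mul, add_zero] 
    convert h1 using 2
    refine Finset.sum_congr rfl fun j _ => ?_
    rw [show i + (j + 1) + 2 = i + 1 + j + 2 by ring, show i + (j + 1) + 1 = i + 1 + j + 1 by ring,
      show i + (j + 1) + 3 = i + 1 + j + 3 by ring]

/-- C2 -/
theorem hb_exists {X : Type*} [TopologicalSpace X] {K : Set X} (hK : IsCompact K)
    {a : ℕ → X → ℝ} (ha : ∀ j, ContinuousOn (a j) K)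
    (h : ∀ x ∈ K, ∃ j, 1 ≤ j ∧ a j x ≠ 0) :
    ∃ (J : ℕ) (k : ℕ → ℝ), ∀ x ∈ K, a 1 x = 0 →
      0 < ∑ j ∈ Finset.range J, k j * (a (j + 2) x ^ 2 + a (j + 1) x * a (j + 3) x) := by
  have : CompactSpace K := isCompact_iff_compactSpace.mp hK
  let b : ℕ → K → ℝ := fun j x => a j x
  have hb : ∀ j, Continuous (b j) := fun j => continuousOn_iff_continuous_domRestrict.mp (ha j)
  obtain ⟨t, ht⟩ := isCompact_univ.elim_finite_subcover (fun j : ℕ => {x : K | b (j + 1) x ≠ 0})
    (fun j => isOpen_ne_fun (hb _) continuous_const) (by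
      intro x _
      obtain ⟨j, h1, h2⟩ := h x x.2
      refine Set.mem_iUnion.mpr ⟨j - 1, ?_⟩
      show b (j - 1 + 1) x ≠ 0
      rw [Nat.sub_add_cancel h1]
      exact h2)
  obtain ⟨k, hk⟩ := hb_aux hb (t.sup id) 0 (fun x => by
    have hx := ht (Set.mem_univ x)
    simp only [Set.mem_iUnion] at hx
    obtain ⟨j, hj, hj2⟩ := hx
    have : j ≤ t.sup id := Finset.le_sup (f := id) hj
    exact ⟨j + 1, by omega, by omega, hj2⟩)
  refine ⟨t.sup id, k, fun x hx hx1 => ?_⟩
  have := hk ⟨x, hx⟩ (fun j h1 h2 => by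
    have : j = 1 := by omega
    rw [this]; exact hx1)
  simpa [b] using this

/-- C3 -/
theorem rot_exists {X : Type*} [TopologicalSpace X] {K A : Set X} (hK : IsCompact K)
    (hA : IsCompact A) (hAK : A ⊆ K) {p q p' q' : X → ℝ} (hp : ContinuousOn p K)
    (hq : ContinuousOn q K) (hp' : ContinuousOn p' K) (hq' : ContinuousOn q' K)
    (h1 : ∀ x ∈ K, p x = 0 → 0 < q x) (h2 : ∀ x ∈ A, p x = 0 → 0 < p' x) :
    ∃ κ > 0, ∃ ε > 0, ∀ x ∈ K, ∀ l Λ : ℝ, 0 ≤ Λ →
      (κ ≤ Λ ∨ (x ∈ A ∧ |Real.sin l| ≤ ε ∧ 0 < Real.cos l)) →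
      Real.cos l * p x + Real.sin l * q x = 0 →
      Λ * (-Real.sin l * p x + Real.cos l * q x) + Real.cos l * p' x + Real.sin l * q' x ≠ 0 := by
  obtain ⟨C1, hC1, c1, hc1, hq1⟩ := pos_add_sq' hK hq hp h1
  obtain ⟨C2, hC2, c2, hc2, hp2⟩ := pos_add_sq' hA (hp'.mono hAK) (hp.mono hAK) h2
  -- upper bounds
  have bdd : ∀ f : X → ℝ, ContinuousOn f K → ∃ M > 0, ∀ x ∈ K, |f x| ≤ M := by
    intro f hf
    obtain ⟨M, hM⟩ := hK.exists_bound_of_continuousOn hf
    exact ⟨max M 1, lt_max_of_lt_right one_pos, fun x hx =>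
      ((Real.norm_eq_abs _).symm.le.trans (hM x hx)).trans (le_max_left _ _)⟩
  obtain ⟨Mp, hMp, bp⟩ := bdd p hp
  obtain ⟨Mq, hMq, bq⟩ := bdd q hq
  obtain ⟨Mp', hMp', bp'⟩ := bdd p' hp'
  obtain ⟨Mq', hMq', bq'⟩ := bdd q' hq'
  -- a lower bound for p ^ 2 + q ^ 2
  obtain ⟨m, hm, hmK⟩ : ∃ m > 0, ∀ x ∈ K, m ^ 2 ≤ p x ^ 2 + q x ^ 2 := by
    -- if q ≥ c1/2 fine, else C1 p^2 ≥ c1/2
    refine ⟨min (c1 / 2) (Real.sqrt (c1 / (2 * C1))), lt_min (by positivity)
      (Real.sqrt_pos.mpr (by positivity)), fun x hx => ?_⟩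
    have h3 := hq1 x hx
    have hmpos : 0 ≤ min (c1 / 2) (Real.sqrt (c1 / (2 * C1))) :=
      le_min (by positivity) (Real.sqrt_nonneg _)
    rcases le_or_gt (c1 / 2) (q x) with h4 | h4
    · have h5 : min (c1 / 2) (Real.sqrt (c1 / (2 * C1))) ^ 2 ≤ (c1 / 2) ^ 2 :=
        pow_le_pow_left₀ hmpos (min_le_left _ _) 2
      have h6 : (c1 / 2) ^ 2 ≤ q x ^ 2 := pow_le_pow_left₀ (by positivity) h4 2
      nlinarith [sq_nonneg (p x)]
    · have h5 : min (c1 / 2) (Real.sqrt (c1 / (2 * C1))) ^ 2 ≤ c1 / (2 * C1) := by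
        have := pow_le_pow_left₀ hmpos (min_le_right (c1 / 2) (Real.sqrt (c1 / (2 * C1)))) 2
        rwa [Real.sq_sqrt (by positivity)] at this
      have h6 : c1 / (2 * C1) ≤ p x ^ 2 := by
        rw [div_le_iff₀ (by positivity)]
        linarith
      nlinarith [sq_nonneg (q x)]
  refine ⟨(Mp' + Mq' + 1) / m, by positivity,
    min (1 / 2) (min (Real.sqrt (c1 / (2 * C1)) / (Mp + Mq))
      (min (Real.sqrt (c2 / (2 * C2)) / (Mp + Mq)) (c2 / (8 * Mq')))), ?_, ?_⟩
  · refine lt_min (by norm_num) (lt_min ?_ (lt_min ?_ (by positivity)))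
    · exact div_pos (Real.sqrt_pos.mpr (by positivity)) (by positivity)
    · exact div_pos (Real.sqrt_pos.mpr (by positivity)) (by positivity)
  intro x hx l Λ hΛ hor h0
  set s := Real.sin l with hs
  set co := Real.cos l with hco
  have hsc : s ^ 2 + co ^ 2 = 1 := Real.sin_sq_add_cos_sq l
  set ρ := -s * p x + co * q x with hρ
  -- p = - ρ s, q = ρ co
  have hpρ : p x = -ρ * s := by
    have : p x = p x * (s ^ 2 + co ^ 2) := by rw [hsc, mul_one]
    rw [this, hρ]
    linear_combination co * h0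
  have hqρ : q x = ρ * co := by
    have : q x = q x * (s ^ 2 + co ^ 2) := by rw [hsc, mul_one]
    rw [this, hρ]
    linear_combination s * h0
  have hρ2 : ρ ^ 2 = p x ^ 2 + q x ^ 2 := by
    rw [hpρ, hqρ]
    linear_combination (-ρ ^ 2) * hsc
  have hs1 : |s| ≤ 1 := Real.abs_sin_le_one l
  have hco1 : |co| ≤ 1 := Real.abs_cos_le_one l
  have hbd : |co * p' x + s * q' x| ≤ Mp' + Mq' := by
    calc |co * p' x + s * q' x| ≤ |co * p' x| + |s * q' x| := abs_add_le _ _
      _ = |co| * |p' x| + |s| * |q' x| := by rw [abs_mul, abs_mul]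
      _ ≤ 1 * Mp' + 1 * Mq' := by
        have := bp' x hx
        have := bq' x hx
        gcongr
      _ = Mp' + Mq' := by ring
  rcases hor with hκ | ⟨hxA, hsε, hcpos⟩
  · have hρm : m ≤ |ρ| := by
      have h3 := hmK x hx
      rw [← hρ2, ← sq_abs ρ] at h3
      exact (pow_le_pow_iff_left₀ hm.le (abs_nonneg _) two_ne_zero).mp h3
    have h4 : Mp' + Mq' + 1 ≤ |Λ * ρ| := by
      rw [abs_mul, abs_of_nonneg hΛ]
      have h5 : (Mp' + Mq' + 1) / m * m ≤ Λ * |ρ| :=
        mul_le_mul hκ hρm hm.le hΛ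
      rwa [div_mul_cancel₀ _ hm.ne'] at h5
    intro hcon
    have h6 : Λ * ρ = -(co * p' x + s * q' x) := by linarith
    rw [h6, abs_neg] at h4
    linarith
  · have hε1 : |s| ≤ 1 / 2 := hsε.trans (min_le_left _ _)
    have hε2 : |s| ≤ Real.sqrt (c1 / (2 * C1)) / (Mp + Mq) :=
      hsε.trans ((min_le_right _ _).trans (min_le_left _ _))
    have hε3 : |s| ≤ Real.sqrt (c2 / (2 * C2)) / (Mp + Mq) :=
      hsε.trans ((min_le_right _ _).trans ((min_le_right _ _).trans (min_le_left _ _)))
    have hε4 : |s| ≤ c2 / (8 * Mq') :=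
      hsε.trans ((min_le_right _ _).trans ((min_le_right _ _).trans (min_le_right _ _)))
    have hρM : |ρ| ≤ Mp + Mq := by
      rw [hρ]
      calc |-s * p x + co * q x| ≤ |-s * p x| + |co * q x| := abs_add_le _ _
        _ = |s| * |p x| + |co| * |q x| := by rw [abs_mul, abs_mul, abs_neg]
        _ ≤ 1 * Mp + 1 * Mq := by
          have := bp x hx
          have := bq x hx
          gcongr
        _ = Mp + Mq := by ring
    have hMM : 0 < Mp + Mq := by positivity
    have hpsm : ∀ b : ℝ, |s| ≤ b / (Mp + Mq) → |p x| ≤ b := by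
      intro b hb
      rw [hpρ, abs_mul, abs_neg]
      calc |ρ| * |s| ≤ (Mp + Mq) * (b / (Mp + Mq)) := by gcongr
        _ = b := by field_simp
    have hq_pos : c1 / 2 ≤ q x := by
      have h3 := hpsm _ hε2
      have h4 : p x ^ 2 ≤ c1 / (2 * C1) := by
        rw [← sq_abs]
        have := pow_le_pow_left₀ (abs_nonneg _) h3 2
        rwa [Real.sq_sqrt (by positivity)] at this
      have h5 : C1 * p x ^ 2 ≤ c1 / 2 := by
        calc C1 * p x ^ 2 ≤ C1 * (c1 / (2 * C1)) := by gcongr
          _ = c1 / 2 := by field_simp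
      have := hq1 x hx
      linarith
    have hp'_pos : c2 / 2 ≤ p' x := by
      have h3 := hpsm _ hε3
      have h4 : p x ^ 2 ≤ c2 / (2 * C2) := by
        rw [← sq_abs]
        have := pow_le_pow_left₀ (abs_nonneg _) h3 2
        rwa [Real.sq_sqrt (by positivity)] at this
      have h5 : C2 * p x ^ 2 ≤ c2 / 2 := by
        calc C2 * p x ^ 2 ≤ C2 * (c2 / (2 * C2)) := by gcongr
          _ = c2 / 2 := by field_simp
      have := hp2 x hxA
      linarith
    have hco2 : 1 / 2 < co := by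
      have h3 : s ^ 2 ≤ 1 / 4 := by
        calc s ^ 2 = |s| ^ 2 := (sq_abs s).symm
          _ ≤ (1 / 2) ^ 2 := pow_le_pow_left₀ (abs_nonneg _) hε1 2
          _ = 1 / 4 := by norm_num
      nlinarith
    have hρpos : 0 ≤ ρ := by
      by_contra hneg
      push Not at hneg
      have : q x < 0 := by
        rw [hqρ]; exact mul_neg_of_neg_of_pos hneg hcpos
      linarith
    have h7 : -(c2 / 8) ≤ s * q' x := by
      have h8 : |s * q' x| ≤ c2 / 8 := by
        rw [abs_mul]
        calc |s| * |q' x| ≤ (c2 / (8 * Mq')) * Mq' := by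
              have := bq' x hx
              gcongr
          _ = c2 / 8 := by field_simp
      linarith [neg_abs_le (s * q' x)]
    have h9 : c2 / 4 ≤ co * p' x := by
      calc c2 / 4 = 1 / 2 * (c2 / 2) := by ring
        _ ≤ co * p' x := by gcongr
    have h10 : 0 ≤ Λ * ρ := mul_nonneg hΛ hρpos
    intro hcon
    linarith

private theorem hasDerivAt_glue {y : ℝ} (hy : 0 < y) :
    HasDerivAt expNegInvGlue (expNegInvGlue y * (y ^ 2)⁻¹) y := by
  have h1 : HasDerivAt (fun x : ℝ => Real.exp (-x⁻¹)) (Real.exp (-y⁻¹) * (-(-(y ^ 2)⁻¹))) y :=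
    ((hasDerivAt_inv hy.ne').neg).exp
  have h2 : expNegInvGlue =ᶠ[𝓝 y] fun x : ℝ => Real.exp (-x⁻¹) := by
    filter_upwards [lt_mem_nhds hy] with x hx
    simp [expNegInvGlue, not_le.mpr hx]
  have h3 := h1.congr_of_eventuallyEq h2
  rw [neg_neg] at h3
  have h4 : expNegInvGlue y = Real.exp (-y⁻¹) := by simp [expNegInvGlue, not_le.mpr hy]
  rwa [h4]

private theorem hasDerivAt_st {y : ℝ} (h0 : 0 < y) (h1 : y < 1) :
    HasDerivAt Real.smoothTransition
      (Real.smoothTransition y * (1 - Real.smoothTransition y) * ((y ^ 2)⁻¹ + ((1 - y) ^ 2)⁻¹))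
      y := by
  have hf := hasDerivAt_glue h0
  have hg : HasDerivAt (fun x : ℝ => expNegInvGlue (1 - x))
      (expNegInvGlue (1 - y) * ((1 - y) ^ 2)⁻¹ * (-1)) y := by
    have h2 : HasDerivAt (fun x : ℝ => 1 - x) (-1) y := by
      simpa using (hasDerivAt_id y).const_sub 1
    exact (hasDerivAt_glue (sub_pos.mpr h1)).comp y h2
  have hd : expNegInvGlue y + expNegInvGlue (1 - y) ≠ 0 := (Real.smoothTransition.pos_denom y).ne'
  have h3 := hf.div (hf.add hg) hd
  have h4 : Real.smoothTransition = fun x => expNegInvGlue x / (expNegInvGlue x + expNegInvGlue (1 - x)) := rfl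
  have hy1 : (1 - y) ≠ 0 := (sub_pos.mpr h1).ne'
  have hy0 : y ≠ 0 := h0.ne'
  rw [h4]
  refine h3.congr_deriv ?_
  simp only [Pi.add_apply]
  field_simp
  ring

private theorem st_symm (y : ℝ) : Real.smoothTransition y = 1 - Real.smoothTransition (1 - y) := by
  have hd : expNegInvGlue y + expNegInvGlue (1 - y) ≠ 0 := (Real.smoothTransition.pos_denom y).ne'
  have hd' : expNegInvGlue (1 - y) + expNegInvGlue y ≠ 0 := by rwa [add_comm]
  unfold Real.smoothTransition
  rw [sub_sub_cancel]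
  field_simp
  ring

private theorem st_half {y : ℝ} (h : y ≤ 1 / 2) : Real.smoothTransition y ≤ 1 / 2 := by
  unfold Real.smoothTransition
  rw [div_le_iff₀ (Real.smoothTransition.pos_denom y)]
  have := expNegInvGlue.monotone (show y ≤ 1 - y by linarith)
  linarith

private theorem st_deriv_ge {y : ℝ} (h0 : 0 < y) (h1 : y ≤ 1 / 2) :
    Real.smoothTransition y / (2 * y ^ 2) ≤ deriv Real.smoothTransition y := by
  rw [(hasDerivAt_st h0 (by linarith)).deriv]
  have h2 := st_half h1
  have h3 := Real.smoothTransition.nonneg y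
  have h4 : (0 : ℝ) < ((1 - y) ^ 2)⁻¹ := by
    have : 0 < 1 - y := by linarith
    positivity
  calc Real.smoothTransition y / (2 * y ^ 2)
      = Real.smoothTransition y * (1 / 2) * ((y ^ 2)⁻¹ + 0) := by field_simp; ring
    _ ≤ Real.smoothTransition y * (1 - Real.smoothTransition y) * ((y ^ 2)⁻¹ + ((1 - y) ^ 2)⁻¹) := by
      have h5 : Real.smoothTransition y * (1 / 2)
          ≤ Real.smoothTransition y * (1 - Real.smoothTransition y) :=
        mul_le_mul_of_nonneg_left (by linarith) h3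
      exact mul_le_mul h5 (by linarith) (by positivity) (mul_nonneg h3 (by linarith))

private theorem st_deriv_symm (y : ℝ) :
    deriv Real.smoothTransition (1 - y) = deriv Real.smoothTransition y := by
  have h1 : Real.smoothTransition = fun y => 1 - Real.smoothTransition (1 - y) := funext st_symm
  have h2 : deriv Real.smoothTransition y = deriv (fun y => 1 - Real.smoothTransition (1 - y)) y :=
    congrArg (fun f => deriv f y) h1
  rw [h2, deriv_const_sub, deriv_comp_const_sub, neg_neg]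

/-- the one-sided version of C4 -/
private theorem lam_core {D δ κ ε : ℝ} (hD : 0 < D) (hδ : 0 < δ) (hε : 0 < ε) :
    ∃ k : ℕ, ∀ y, 0 ≤ y → y ≤ 1 / 2 →
      (κ * D ≤ (k * (2 * Real.pi)) * deriv Real.smoothTransition y ∨
        (y * D ≤ δ ∧ |Real.sin (k * (2 * Real.pi) * Real.smoothTransition y)| ≤ ε ∧
          0 < Real.cos (k * (2 * Real.pi) * Real.smoothTransition y))) := by
  have hpi := Real.pi_pos
  set κ' := max κ 1 with hκ'
  have hκ'1 : 0 < κ' := lt_max_of_lt_right one_pos
  have hκκ : κ * D ≤ κ' * D := mul_le_mul_of_nonneg_right (le_max_left _ _) hD.le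
  set lam := min ε 1 with hlam
  have hlam0 : 0 < lam := lt_min hε one_pos
  set y0 := Real.sqrt (lam / (2 * (κ' * D))) with hy0
  have hy0pos : 0 < y0 := Real.sqrt_pos.mpr (by positivity)
  set y1 := min y0 (min (δ / D) (1 / 2)) with hy1
  have hy1pos : 0 < y1 := lt_min hy0pos (lt_min (by positivity) (by norm_num))
  have hχ : 0 < Real.smoothTransition y1 := Real.smoothTransition.pos_of_pos hy1pos
  obtain ⟨k, hk⟩ := exists_nat_ge (κ' * D / (2 * Real.smoothTransition y1 * (2 * Real.pi)))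
  have hk' : κ' * D / 2 ≤ k * (2 * Real.pi) * Real.smoothTransition y1 := by
    rw [div_le_iff₀ (by positivity)] at hk
    linarith
  refine ⟨k, fun y hy hyh => ?_⟩
  rcases hy.eq_or_lt with rfl | hy
  · right
    simp [hδ.le, hε.le]
  set N : ℝ := k * (2 * Real.pi) with hN
  have hN0 : 0 ≤ N := by positivity
  have hge := st_deriv_ge hy hyh
  rcases le_or_gt y1 y with hyy | hyy
  · left
    have h1 : Real.smoothTransition y1 ≤ Real.smoothTransition y :=
      Real.smoothTransition.monotone hyy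
    have h2 : 2 * Real.smoothTransition y ≤ Real.smoothTransition y / (2 * y ^ 2) := by
      rw [le_div_iff₀ (by positivity)]
      have h3 : y ^ 2 ≤ 1 / 4 := by nlinarith
      have h4 := Real.smoothTransition.nonneg y
      nlinarith
    calc κ * D ≤ κ' * D := hκκ
      _ ≤ 2 * (N * Real.smoothTransition y1) := by linarith
      _ = N * (2 * Real.smoothTransition y1) := by ring
      _ ≤ N * deriv Real.smoothTransition y := by
        apply mul_le_mul_of_nonneg_left _ hN0
        linarith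
  · have hyy0 : y < y0 := hyy.trans_le (min_le_left _ _)
    have hyδ : y * D ≤ δ := by
      have h3 : y ≤ δ / D := hyy.le.trans ((min_le_right _ _).trans (min_le_left _ _))
      rwa [le_div_iff₀ hD] at h3
    rcases le_or_gt (N * Real.smoothTransition y) lam with h | h
    · right
      have h4 : 0 ≤ N * Real.smoothTransition y :=
        mul_nonneg hN0 (Real.smoothTransition.nonneg y)
      have h5 : lam ≤ 1 := min_le_right _ _
      have hlam2 : lam ≤ ε := min_le_left _ _
      have hpi3 := Real.pi_gt_three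
      refine ⟨hyδ, ?_, Real.cos_pos_of_mem_Ioo ⟨by linarith, by linarith⟩⟩
      rw [abs_of_nonneg (Real.sin_nonneg_of_nonneg_of_le_pi h4 (by linarith))]
      exact (Real.sin_le h4).trans (h.trans hlam2)
    · left
      have h6 : y ^ 2 ≤ lam / (2 * (κ' * D)) := by
        have := pow_le_pow_left₀ hy.le hyy0.le 2
        rwa [hy0, Real.sq_sqrt (by positivity)] at this
      have h7 : κ' * D ≤ lam / (2 * y ^ 2) := by
        rw [le_div_iff₀ (by positivity)]
        rw [le_div_iff₀ (by positivity)] at h6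
        linarith
      calc κ * D ≤ κ' * D := hκκ
        _ ≤ lam / (2 * y ^ 2) := h7
        _ ≤ (N * Real.smoothTransition y) / (2 * y ^ 2) := by gcongr
        _ = N * (Real.smoothTransition y / (2 * y ^ 2)) := by ring
        _ ≤ N * deriv Real.smoothTransition y := mul_le_mul_of_nonneg_left hge hN0

/-- C4 -/
theorem lam_exists {a b δ κ ε : ℝ} (hab : a < b) (hδ : 0 < δ) (hε : 0 < ε) :
    ∃ l : ℝ → ℝ, ContDiff ℝ ∞ l ∧ (∀ x, deriv l x ≤ 0) ∧ (∀ x, b ≤ x → l x = 0) ∧
      (∃ k : ℕ, ∀ x, x ≤ a → l x = 2 * Real.pi * k) ∧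
      ∀ x, a ≤ x → x ≤ b → (κ ≤ -deriv l x ∨
        ((x ≤ a + δ ∨ b - δ ≤ x) ∧ |Real.sin (l x)| ≤ ε ∧ 0 < Real.cos (l x))) := by
  have hD : 0 < b - a := sub_pos.mpr hab
  obtain ⟨k, hk⟩ := lam_core (D := b - a) (δ := δ) (κ := κ) (ε := ε) hD hδ hε
  have hpi := Real.pi_pos
  set N : ℝ := k * (2 * Real.pi) with hN
  have hN0 : 0 ≤ N := by positivity
  have hanti : Antitone (fun x : ℝ => N * Real.smoothTransition ((b - x) / (b - a))) := by
    intro x y hxy
    refine mul_le_mul_of_nonneg_left (Real.smoothTransition.monotone ?_) hN0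
    exact div_le_div_of_nonneg_right (by linarith) hD.le
  have hder : ∀ x, deriv (fun x : ℝ => N * Real.smoothTransition ((b - x) / (b - a))) x
      = -(N * deriv Real.smoothTransition ((b - x) / (b - a)) / (b - a)) := by
    intro x
    have h1 : HasDerivAt (fun x : ℝ => (b - x) / (b - a)) (-1 / (b - a)) x := by
      have := ((hasDerivAt_id x).const_sub b).div_const (b - a)
      simpa using this
    have h2 : HasDerivAt Real.smoothTransition (deriv Real.smoothTransition ((b - x) / (b - a)))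
        ((b - x) / (b - a)) :=
      ((Real.smoothTransition.contDiff (n := 1)).differentiable (by simp)
        ((b - x) / (b - a))).hasDerivAt
    have h3 := (h2.comp x h1).const_mul N
    have h4 : deriv (fun x : ℝ => N * Real.smoothTransition ((b - x) / (b - a))) x = _ := h3.deriv
    rw [h4]
    ring
  refine ⟨fun x => N * Real.smoothTransition ((b - x) / (b - a)), ?_, ?_, ?_, ⟨k, ?_⟩, ?_⟩
  · refine contDiff_const.mul (Real.smoothTransition.contDiff.comp ?_)
    exact (contDiff_const.sub contDiff_id).div_const _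
  · intro x
    exact hanti.deriv_nonpos
  · intro x hx
    have : (b - x) / (b - a) ≤ 0 := div_nonpos_of_nonpos_of_nonneg (by linarith) hD.le
    simp [Real.smoothTransition.zero_of_nonpos this]
  · intro x hx
    have : 1 ≤ (b - x) / (b - a) := by
      rw [le_div_iff₀ hD]; linarith
    simp only [Real.smoothTransition.one_of_one_le this]
    rw [hN]; ring
  · intro x hax hxb
    have hy0 : 0 ≤ (b - x) / (b - a) := div_nonneg (by linarith) hD.le
    have hy1 : (b - x) / (b - a) ≤ 1 := by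
      rw [div_le_one hD]; linarith
    rw [hder, neg_neg]
    rcases le_or_gt ((b - x) / (b - a)) (1 / 2) with h | h
    · rcases hk _ hy0 h with h1 | ⟨h1, h2, h3⟩
      · left
        rwa [le_div_iff₀ hD]
      · right
        refine ⟨Or.inr ?_, h2, h3⟩
        rw [div_mul_cancel₀ _ hD.ne'] at h1
        linarith
    · have hy' : 1 - (b - x) / (b - a) = (x - a) / (b - a) := by
        field_simp
        ring
      rcases hk (1 - (b - x) / (b - a)) (by linarith) (by linarith) with h1 | ⟨h1, h2, h3⟩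
      · left
        rw [st_deriv_symm] at h1
        rwa [le_div_iff₀ hD]
      · right
        have hz : N * Real.smoothTransition ((b - x) / (b - a))
            = k * (2 * Real.pi) - N * Real.smoothTransition (1 - (b - x) / (b - a)) := by
          rw [st_symm ((b - x) / (b - a)), ← hN]
          ring
        refine ⟨Or.inl ?_, ?_, ?_⟩
        · rw [hy', div_mul_cancel₀ _ hD.ne'] at h1
          linarith
        · show |Real.sin (N * Real.smoothTransition ((b - x) / (b - a)))| ≤ ε
          rw [hz, Real.sin_nat_mul_two_pi_sub, abs_neg]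
          exact h2
        · show 0 < Real.cos (N * Real.smoothTransition ((b - x) / (b - a)))
          rw [hz, Real.cos_nat_mul_two_pi_sub]
          exact h3

end Pool.Agent.helper79.FR
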